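import Pool.Agent.MP_c42d5f_co.H60.Cross

/-! Four tiles, one at each corner of the square, rotated to the lower left corner. -/

namespace Pool.Agent.MP_c42d5f_co.H60

theorem cg {A : Set (ℤ × ℤ)} {a b c d : ℤ} (h : (a, b) ∈ A) (h1 : a = c) (h2 : b = d) :
    (c, d) ∈ A := h1 ▸ h2 ▸ h

/-- A set of cells with the size of its bounding box. -/
@[ext] structure Pc where
  A : Set (ℤ × ℤ)
  W : ℤ
  H : ℤ

/-- The set is connected, contains the origin and has the given bounding box. -/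
structure Pc.Ok (n : ℤ) (P : Pc) : Prop where
  sub : ∀ x y, (x, y) ∈ P.A → 0 ≤ x ∧ x < P.W ∧ 0 ≤ y ∧ y < P.H
  zero : (0, 0) ∈ P.A
  right : ∃ y, (P.W - 1, y) ∈ P.A
  top : ∃ x, (x, P.H - 1) ∈ P.A
  conn : Conn P.A
  ltW : P.W < n
  ltH : P.H < n

/-- Reflection in the diagonal. -/
def Pc.sw (P : Pc) : Pc := ⟨{z | (z.2, z.1) ∈ P.A}, P.H, P.W⟩

/-- Reflection of an interval. -/
def fl (s : Bool) (W x : ℤ) : ℤ := bif s then W - 1 - x else x

/-- Reflections of the bounding box. -/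
def Pc.tw (s t : Bool) (P : Pc) : Pc := ⟨{z | (fl s P.W z.1, fl t P.H z.2) ∈ P.A}, P.W, P.H⟩

@[simp] theorem fl_true (W x : ℤ) : fl true W x = W - 1 - x := rfl
@[simp] theorem fl_false (W x : ℤ) : fl false W x = x := rfl
@[simp] theorem mem_sw (P : Pc) (x y : ℤ) : (x, y) ∈ P.sw.A ↔ (y, x) ∈ P.A := Iff.rfl
@[simp] theorem mem_tw (s t : Bool) (P : Pc) (x y : ℤ) :
    (x, y) ∈ (P.tw s t).A ↔ (fl s P.W x, fl t P.H y) ∈ P.A := Iff.rfl
@[simp] theorem sw_W (P : Pc) : P.sw.W = P.H := rfl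
@[simp] theorem sw_H (P : Pc) : P.sw.H = P.W := rfl
@[simp] theorem tw_W (s t : Bool) (P : Pc) : (P.tw s t).W = P.W := rfl
@[simp] theorem tw_H (s t : Bool) (P : Pc) : (P.tw s t).H = P.H := rfl

theorem tw_ff (P : Pc) : P.tw false false = P := rfl

theorem sw_sw (P : Pc) : P.sw.sw = P := rfl

theorem tw_sw (s t : Bool) (P : Pc) : (P.tw s t).sw = P.sw.tw t s := rfl

theorem tw_tw (s t s' t' : Bool) (P : Pc) : (P.tw s t).tw s' t' = P.tw (xor s s') (xor t t') := by
  ext ⟨x, y⟩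
  · cases s <;> cases t <;> cases s' <;> cases t' <;> simp
  · rfl
  · rfl

theorem Pc.Ok.sw {n : ℤ} {P : Pc} (h : P.Ok n) : P.sw.Ok n where
  sub x y hz := by have := h.sub _ _ hz; simp only [sw_W, sw_H]; omega
  zero := h.zero
  right := h.top
  top := h.right
  conn := h.conn.preimage (fun z => (z.2, z.1)) (fun z => (z.2, z.1))
    (by intro a b; simp only [adj_iff]; omega) (fun _ => rfl) (fun _ => rfl)
  ltW := h.ltH
  ltH := h.ltW

/-- The rotated pieces tile the square. -/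
structure Cfg (n : ℤ) (P0 P1 P2 P3 : Pc) : Prop where
  o0 : P0.Ok n
  o1 : P1.Ok n
  o2 : P2.Ok n
  o3 : P3.Ok n
  cover : ∀ x y, 0 ≤ x → x < n → 0 ≤ y → y < n → (x, y) ∈ P0.A ∨ (y, n - 1 - x) ∈ P1.A ∨
    (n - 1 - x, n - 1 - y) ∈ P2.A ∨ (n - 1 - y, x) ∈ P3.A
  d01 : ∀ {x y x' y'}, (x, y) ∈ P0.A → (x', y') ∈ P1.A → x' = y → y' = n - 1 - x → False
  d12 : ∀ {x y x' y'}, (x, y) ∈ P1.A → (x', y') ∈ P2.A → x' = y → y' = n - 1 - x → False
  d23 : ∀ {x y x' y'}, (x, y) ∈ P2.A → (x', y') ∈ P3.A → x' = y → y' = n - 1 - x → False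
  d30 : ∀ {x y x' y'}, (x, y) ∈ P3.A → (x', y') ∈ P0.A → x' = y → y' = n - 1 - x → False
  d02 : ∀ {x y x' y'}, (x, y) ∈ P0.A → (x', y') ∈ P2.A → x' = n - 1 - x → y' = n - 1 - y → False
  d13 : ∀ {x y x' y'}, (x, y) ∈ P1.A → (x', y') ∈ P3.A → x' = n - 1 - x → y' = n - 1 - y → False

variable {n : ℤ} {P0 P1 P2 P3 : Pc}

theorem Cfg.shift (h : Cfg n P0 P1 P2 P3) : Cfg n P1 P2 P3 P0 where
  o0 := h.o1
  o1 := h.o2
  o2 := h.o3
  o3 := h.o0
  cover x y h1 h2 h3 h4 := by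
    rcases h.cover (n - 1 - y) x (by omega) (by omega) h1 h2 with a | a | a | a
    · exact Or.inr (Or.inr (Or.inr a))
    · exact Or.inl (cg a rfl (by omega))
    · exact Or.inr (Or.inl (cg a (by omega) rfl))
    · exact Or.inr (Or.inr (Or.inl a))
  d01 := h.d12
  d12 := h.d23
  d23 := h.d30
  d30 := h.d01
  d02 := h.d13
  d13 a b c d := h.d02 b a (by omega) (by omega)

theorem Cfg.refl (h : Cfg n P0 P1 P2 P3) : Cfg n P0.sw P3.sw P2.sw P1.sw where
  o0 := h.o0.sw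
  o1 := h.o3.sw
  o2 := h.o2.sw
  o3 := h.o1.sw
  cover x y h1 h2 h3 h4 := by
    rcases h.cover y x h3 h4 h1 h2 with a | a | a | a
    · exact Or.inl a
    · exact Or.inr (Or.inr (Or.inr a))
    · exact Or.inr (Or.inr (Or.inl a))
    · exact Or.inr (Or.inl a)
  d01 a b c d := h.d30 b a (by omega) (by omega)
  d12 a b c d := h.d23 b a (by omega) (by omega)
  d23 a b c d := h.d12 b a (by omega) (by omega)
  d30 a b c d := h.d01 b a (by omega) (by omega)
  d02 a b c d := h.d02 a b (by omega) (by omega)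
  d13 a b c d := h.d13 b a (by omega) (by omega)

theorem conn1 {A : Set (ℤ × ℤ)} (h : Conn A) (n : ℤ) : Conn {z : ℤ × ℤ | (z.2, n - 1 - z.1) ∈ A} :=
  h.preimage (fun z => (z.2, n - 1 - z.1)) (fun z => (n - 1 - z.2, z.1))
    (by intro a b; simp only [adj_iff]; omega) (by simp) (by simp)

theorem conn2 {A : Set (ℤ × ℤ)} (h : Conn A) (n : ℤ) :
    Conn {z : ℤ × ℤ | (n - 1 - z.1, n - 1 - z.2) ∈ A} :=
  h.preimage (fun z => (n - 1 - z.1, n - 1 - z.2)) (fun z => (n - 1 - z.1, n - 1 - z.2))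
    (by intro a b; simp only [adj_iff]; omega) (by simp) (by simp)

theorem conn3 {A : Set (ℤ × ℤ)} (h : Conn A) (n : ℤ) : Conn {z : ℤ × ℤ | (n - 1 - z.2, z.1) ∈ A} :=
  h.preimage (fun z => (n - 1 - z.2, z.1)) (fun z => (z.2, n - 1 - z.1))
    (by intro a b; simp only [adj_iff]; omega) (by simp) (by simp)

theorem Cfg.bl (h : Cfg n P0 P1 P2 P3) {x y : ℤ} (h1 : (x, 0) ∈ P0.A) (h2 : (0, y) ∈ P1.A)
    (hx : n - 1 - y ≤ x) : False := by
  have := h.o0.ltW
  have := h.o0.ltH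
  have := h.o1.ltW
  have := h.o1.ltH
  refine bottom n n ?_ ?_ ?_ (conn1 h.o1.conn n) h.o0.conn (x1 := n - 1 - y) (y1 := 0)
    (by simpa using h2) (by simpa using h.o1.zero) h.o0.zero h1 hx
  · intro z hz
    have := h.o1.sub _ _ hz
    omega
  · intro z hz
    have := h.o0.sub _ _ hz
    omega
  · intro z hz hz'
    exact h.d01 hz' hz rfl rfl

/-- The first tile does not touch the opposite one. -/
def NT (n : ℤ) (P Q : Pc) : Prop :=
  ∀ x y x' y', (x, y) ∈ P.A → Adj (x, y) (x', y') → (n - 1 - x', n - 1 - y') ∉ Q.A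

theorem Cfg.nt (h : Cfg n P0 P1 P2 P3) : NT n P0 P2 ∨ NT n P1 P3 := by
  by_contra hc
  simp only [NT, not_or, not_forall, not_not] at hc
  obtain ⟨⟨x, y, x', y', a1, a2, a3⟩, ⟨u, v, u', v', b1, b2, b3⟩⟩ := hc
  have := h.o0.ltW
  have := h.o0.ltH
  have := h.o1.ltW
  have := h.o1.ltH
  have := h.o2.ltW
  have := h.o2.ltH
  have := h.o3.ltW
  have := h.o3.ltH
  refine crossing (P := {z | (z.2, n - 1 - z.1) ∈ P1.A ∨ (n - 1 - z.2, z.1) ∈ P3.A})
    (Q := {z | z ∈ P0.A ∨ (n - 1 - z.1, n - 1 - z.2) ∈ P2.A}) 0 (n - 1) 0 (n - 1) ?_ ?_ ?_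
    (x1 := n - 1) (x2 := 0) (y1 := 0) (y2 := n - 1) (Or.inl (cg h.o1.zero rfl (by simp)))
    (Or.inr (cg h.o3.zero (by simp) rfl)) (Or.inr (cg h.o2.zero (by simp) (by simp))) ?_ ?_
  · rintro z (hz | hz)
    · have := h.o1.sub _ _ hz; omega
    · have := h.o3.sub _ _ hz; omega
  · rintro z (hz | hz)
    · have := h.o0.sub _ _ hz; omega
    · have := h.o2.sub _ _ hz; omega
  · rintro z (hz | hz) (hz' | hz')
    · exact h.d01 hz' hz rfl rfl
    · exact h.d12 hz hz' rfl rfl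
    · exact h.d30 hz hz' rfl (by omega)
    · exact h.d23 hz' hz rfl (by omega)
  · have c1 : (n - 1 - v, u) ∈ {z : ℤ × ℤ | (z.2, n - 1 - z.1) ∈ P1.A} := by simpa using b1
    have c2 : (n - 1 - v', u') ∈ {z : ℤ × ℤ | (n - 1 - z.2, z.1) ∈ P3.A} := b3
    refine ((conn1 h.o1.conn n _ (by simpa using h.o1.zero) _ c1).mono
      fun z hz => Or.inl hz).trans ((Reach.step (Or.inl c1) (Or.inr c2) ?_).trans
      ((conn3 h.o3.conn n _ c2 _ (by simpa using h.o3.zero)).mono fun z hz => Or.inr hz))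
    simp only [adj_iff] at b2 ⊢; omega
  · have c2 : (x', y') ∈ {z : ℤ × ℤ | (n - 1 - z.1, n - 1 - z.2) ∈ P2.A} := a3
    exact ((h.o0.conn _ h.o0.zero _ a1).mono fun z hz => Or.inl hz).trans
      ((Reach.step (Or.inl a1) (Or.inr c2) a2).trans
      ((conn2 h.o2.conn n _ c2 _ (by simpa using h.o2.zero)).mono fun z hz => Or.inr hz))

/-- A straight line that separates the tiles. -/
def Fault (n : ℤ) (P0 P1 P2 P3 : Pc) : Prop :=
  ∃ c, (P0.W ≤ c ∧ P3.H ≤ c ∧ P1.H ≤ n - c ∧ P2.W ≤ n - c) ∨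
    (P0.H ≤ c ∧ P1.W ≤ c ∧ P2.H ≤ n - c ∧ P3.W ≤ n - c)

theorem Fault.shift (h : Fault n P1 P2 P3 P0) : Fault n P0 P1 P2 P3 := by
  obtain ⟨c, h | h⟩ := h
  · exact ⟨c, Or.inr (by omega)⟩
  · exact ⟨n - c, Or.inl (by omega)⟩

/-- A piece that contains the `k × k` square is that square. -/
def NoSq (k : ℤ) (P : Pc) : Prop :=
  (∀ x y, 0 ≤ x → x < k → 0 ≤ y → y < k → (x, y) ∈ P.A) → P.W ≤ k ∧ P.H ≤ k

/-- Equal bounding boxes up to a quarter turn. -/
def Dim (P Q : Pc) : Prop := (Q.W = P.W ∧ Q.H = P.H) ∨ (Q.W = P.H ∧ Q.H = P.W)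

theorem small {k : ℤ} (h : Cfg (2 * k) P0 P1 P2 P3) (q0 : NoSq k P0) (q1 : NoSq k P1)
    (e1 : P1.W = P0.H) (e2 : P1.H = P0.W) (d2 : Dim P0 P2) (d3 : Dim P0 P3) (hW : P0.W ≤ k) :
    Fault (2 * k) P0 P1 P2 P3 := by
  have := h.o0.ltW
  have := h.o2.ltH
  have := h.o3.ltW
  have := h.o0.sub _ _ h.o0.zero
  have hk : P0.W = k := by
    rcases h.cover P0.W 0 (by omega) (by omega) (by omega) (by omega) with a | a | a | a
    · have := h.o0.sub _ _ a; omega
    · have := h.o1.sub _ _ a; omega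
    · have := h.o2.sub _ _ a; omega
    · have := h.o3.sub _ _ a; omega
  unfold Dim at d2 d3
  by_cases c2 : P2.W ≤ k
  · by_cases c3 : P3.H ≤ k
    · exact ⟨k, Or.inl (by omega)⟩
    · have := q0 fun x y h1 h2 h3 h4 => by
        rcases h.cover x y h1 (by omega) h3 (by omega) with a | a | a | a
        · exact a
        · have := h.o1.sub _ _ a; omega
        · have := h.o2.sub _ _ a; omega
        · have := h.o3.sub _ _ a; omega
      omega
  · have := q1 fun x y h1 h2 h3 h4 => by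
      rcases h.shift.cover x y h1 (by omega) h3 (by omega) with a | a | a | a
      · exact a
      · have := h.o2.sub _ _ a; omega
      · have := h.o3.sub _ _ a; omega
      · have := h.o0.sub _ _ a; omega
    omega

theorem swap_case {k : ℤ} (s t : Bool) (h : Cfg (2 * k) P0 (P0.sw.tw s t) P2 P3) (q0 : NoSq k P0)
    (q1 : NoSq k (P0.sw.tw s t)) (d2 : Dim P0 P2) (d3 : Dim P0 P3) :
    Fault (2 * k) P0 (P0.sw.tw s t) P2 P3 := by
  by_cases hW : P0.W ≤ k
  · exact small h q0 q1 rfl rfl d2 d3 hW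
  have z1 := h.o1.zero
  have := h.o0.ltW
  have := h.o0.ltH
  have := h.o2.ltH
  have := h.o3.ltW
  have := h.o0.sub _ _ h.o0.zero
  cases s <;> cases t
  · obtain ⟨y, hy⟩ := h.o0.right
    obtain ⟨y', a, b⟩ := (h.o0.conn _ h.o0.zero _ hy).cross_x k (by simp; omega) (by simp; omega)
    exact (h.d01 (x' := y') (y' := k - 1) b a rfl (by omega)).elim
  · simp only [mem_tw, mem_sw, fl_true, fl_false, sw_H, sub_zero] at z1
    exact (h.bl z1 (y := P0.W - 1) (by simpa using h.o0.zero) (by omega)).elim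
  · have row : ∀ x, 0 ≤ x → x < 2 * k → (x, P0.H - 1) ∈ P0.A ∨
        (P0.H - 1, 2 * k - 1 - x) ∈ (P0.sw.tw true false).A := by
      intro x h1 h2
      rcases h.cover (2 * k - 1 - x) 0 (by omega) (by omega) (by omega) (by omega) with
        a | a | a | a
      · exact Or.inr (by simpa using a)
      · exact Or.inl (cg a (by simp) (by simp))
      · have := h.o2.sub _ _ a; omega
      · have := h.o3.sub _ _ a; omega
    refine ⟨P0.H, Or.inr ⟨le_rfl, le_rfl, ?_, ?_⟩⟩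
    · by_contra hc
      obtain ⟨x, hx⟩ := h.o2.top
      obtain ⟨x', -, b⟩ := (h.o2.conn _ h.o2.zero _ hx).cross_y (2 * k - P0.H) (by simp; omega)
        (by simp; omega)
      have := h.o2.sub _ _ b
      have := h.o2.ltW
      rcases row (2 * k - 1 - x') (by omega) (by omega) with a | a
      · exact h.d02 a b (by omega) (by omega)
      · exact h.d12 a b (by omega) (by omega)
    · by_contra hc
      obtain ⟨x, hx⟩ := h.o3.right
      obtain ⟨x', -, b⟩ := (h.o3.conn _ h.o3.zero _ hx).cross_x (2 * k - P0.H) (by simp; omega)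
        (by simp; omega)
      have := h.o3.sub _ _ b
      have := h.o3.ltH
      rcases row x' (by omega) (by omega) with a | a
      · exact h.d30 b a (by omega) (by omega)
      · exact h.d13 a b (by omega) (by omega)
  · simp only [mem_tw, mem_sw, fl_true, sw_H, sw_W, sub_zero] at z1
    exfalso
    refine bottom (P := {z | (z.1 - (2 * k - P0.W), z.2) ∈ P0.A})
      (Q := {z | (z.1, P0.H - 1 - z.2) ∈ P0.A}) (2 * k) P0.H ?_ ?_ ?_ ?_ ?_
      (x1 := 2 * k - P0.W) (x2 := P0.W - 1) (y1 := P0.H - 1) (y2 := P0.H - 1)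
      (by simpa using h.o0.zero) (Set.mem_ofPred.2 (cg z1 (by simp only; omega) rfl))
      (by simpa using h.o0.zero) (by simpa using z1) (by omega)
    · intro z hz
      have := h.o0.sub _ _ hz; omega
    · intro z hz
      have := h.o0.sub _ _ hz; omega
    · intro z hz hz'
      refine h.d01 hz' (x' := P0.H - 1 - z.2) (y' := 2 * k - 1 - z.1) ((mem_tw ..).2 ((mem_sw ..).2 (cg hz ?_ ?_))) rfl rfl
      · simp only [fl_true, sw_H]; omega
      · simp only [fl_true, sw_W]; omega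
    · exact h.o0.conn.preimage (fun z => (z.1 - (2 * k - P0.W), z.2))
        (fun z => (z.1 + (2 * k - P0.W), z.2))
        (by intro a b; simp only [adj_iff]; omega) (by simp) (by simp)
    · exact h.o0.conn.preimage (fun z => (z.1, P0.H - 1 - z.2)) (fun z => (z.1, P0.H - 1 - z.2))
        (by intro a b; simp only [adj_iff]; omega) (by simp) (by simp)

theorem Cfg.final (h : Cfg n P0 P1 P2 P3) (Y : ℤ → ℤ → Prop) (h1 : ∀ x y, (x, y) ∈ P1.A → Y x y)
    (h2 : ∀ x y, (x, y) ∈ P2.A → Y x y) (h3 : ∀ x y, (x, y) ∈ P3.A → Y x y)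
    (e1 : ∀ x y x' y', Y x y → Y x' y' → x' = y → y' = n - 1 - x → False)
    (e2 : ∀ x y x' y', Y x y → Y x' y' → x' = n - 1 - x → y' = n - 1 - y → False) :
    P1.A ⊆ P0.A := by
  rintro ⟨x, y⟩ hz
  have := h.o1.sub _ _ hz
  have := h.o1.ltW
  have := h.o1.ltH
  rcases h.cover x y (by omega) (by omega) (by omega) (by omega) with a | a | a | a
  · exact a
  · exact (e1 _ _ _ _ (h1 _ _ hz) (h1 _ _ a) rfl rfl).elim
  · exact (e2 _ _ _ _ (h1 _ _ hz) (h2 _ _ a) rfl rfl).elim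
  · exact (e1 _ _ _ _ (h3 _ _ a) (h1 _ _ hz) rfl (by omega)).elim

theorem glide {P : Pc} (s t : Bool) (o : P.Ok n) (o' : (P.tw s t).Ok n)
    (h : ∀ x y, ¬ ((x, y) ∈ P.A ↔ (x, y) ∈ (P.tw s t).A) →
      ¬ ((n - 1 - x, n - 1 - y) ∈ P.A ↔ (n - 1 - x, n - 1 - y) ∈ (P.tw s t).A)) :
    P.tw s t = P := by
  have := o.ltW
  have := o.ltH
  have key : ∀ x y, ¬ ((x, y) ∈ P.A ↔ (x, y) ∈ (P.tw s t).A) →
      ¬ ((n - 1 - fl s P.W x, n - 1 - fl t P.H y) ∈ P.A ↔
        (n - 1 - fl s P.W x, n - 1 - fl t P.H y) ∈ (P.tw s t).A) := by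
    intro x y hz
    apply h
    intro hc
    apply hz
    rw [mem_tw, hc]
    cases s <;> cases t <;> simp
  have bd : ∀ x y, ¬ ((x, y) ∈ P.A ↔ (x, y) ∈ (P.tw s t).A) → x < P.W ∧ y < P.H := by
    intro x y hz
    by_cases a : (x, y) ∈ P.A
    · have := o.sub _ _ a; omega
    · have b : (x, y) ∈ (P.tw s t).A := by tauto
      have := o'.sub _ _ b
      simp only [tw_W, tw_H] at this
      omega
  have main : ∀ m : ℕ, ∀ x y, ¬ ((x, y) ∈ P.A ↔ (x, y) ∈ (P.tw s t).A) →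
      (s = true ∧ P.W - x ≤ m) ∨ (t = true ∧ P.H - y ≤ m) → False := by
    intro m
    induction m with
    | zero => intro x y hz hm; have := bd x y hz; omega
    | succ m ih =>
      intro x y hz hm
      refine ih _ _ (key x y hz) ?_
      rcases hm with ⟨rfl, hm⟩ | ⟨rfl, hm⟩
      · left; simp only [fl_true, true_and]; omega
      · right; simp only [fl_true, true_and]; omega
  ext ⟨x, y⟩
  · by_contra hc
    have hz : ¬ ((x, y) ∈ P.A ↔ (x, y) ∈ (P.tw s t).A) := fun a => hc a.symm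
    cases s
    · cases t
      · exact hz Iff.rfl
      · exact main (P.H - y).toNat x y hz (Or.inr ⟨rfl, by omega⟩)
    · exact main (P.W - x).toNat x y hz (Or.inl ⟨rfl, by omega⟩)
  · rfl
  · rfl

theorem pat22 {P Q : Pc} (h : Cfg n P P Q Q) (x y : ℤ) (hz : ¬ ((x, y) ∈ P.A ↔ (x, y) ∈ Q.A)) :
    ¬ ((n - 1 - x, n - 1 - y) ∈ P.A ↔ (n - 1 - x, n - 1 - y) ∈ Q.A) := by
  have := h.o0.ltW
  have := h.o0.ltH
  have := h.o2.ltW
  have := h.o2.ltH
  by_cases a : (x, y) ∈ P.A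
  · have := h.o0.sub _ _ a
    have b : (x, y) ∉ Q.A := by tauto
    intro hc
    rcases h.cover (n - 1 - x) (n - 1 - y) (by omega) (by omega) (by omega) (by omega) with
      c | c | c | c
    · exact h.d02 a (hc.1 c) rfl rfl
    · exact h.d01 c a (by omega) (by omega)
    · exact b (cg c (by omega) (by omega))
    · exact h.d12 a c (by omega) (by omega)
  · have b : (x, y) ∈ Q.A := by tauto
    have := h.o2.sub _ _ b
    intro hc
    rcases h.cover x y (by omega) (by omega) (by omega) (by omega) with c | c | c | c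
    · exact a c
    · exact h.d30 b c (by omega) (by omega)
    · exact h.d02 (hc.2 c) b (by omega) (by omega)
    · exact h.d23 c b (by omega) (by omega)

theorem pat13 {P Q : Pc} (h : Cfg n P Q Q Q) (x y : ℤ) (hz : ¬ ((x, y) ∈ P.A ↔ (x, y) ∈ Q.A)) :
    ¬ ((n - 1 - x, n - 1 - y) ∈ P.A ↔ (n - 1 - x, n - 1 - y) ∈ Q.A) := by
  have := h.o0.ltW
  have := h.o0.ltH
  have := h.o2.ltW
  have := h.o2.ltH
  by_cases a : (x, y) ∈ P.A
  · have := h.o0.sub _ _ a
    have b : (x, y) ∉ Q.A := by tauto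
    intro hc
    rcases h.cover (n - 1 - x) (n - 1 - y) (by omega) (by omega) (by omega) (by omega) with
      c | c | c | c
    · exact h.d02 a (hc.1 c) rfl rfl
    · exact h.d30 c a (by omega) (by omega)
    · exact b (cg c (by omega) (by omega))
    · exact h.d01 a c (by omega) (by omega)
  · have b : (x, y) ∈ Q.A := by tauto
    have := h.o2.sub _ _ b
    intro hc
    rcases h.cover x y (by omega) (by omega) (by omega) (by omega) with c | c | c | c
    · exact a c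
    · exact h.d12 b c (by omega) (by omega)
    · exact h.d13 b c (by omega) (by omega)
    · exact h.d23 c b (by omega) (by omega)

theorem alt_rot {P : Pc} (h : Cfg n P (P.tw true true) P (P.tw true true)) (nt : NT n P P)
    (h1 : P.H ≤ P.W) (h2 : n < P.W + P.H) : False := by
  have := h.o0.ltW
  have := h.o0.ltH
  have z1 : (P.W - 1, P.H - 1) ∈ P.A := cg h.o1.zero (by simp) (by simp)
  obtain ⟨Q, hQ⟩ : ∃ Q : Set (ℤ × ℤ),
    Q = {z | z ∉ P.A ∧ 0 ≤ z.1 ∧ z.1 ≤ P.W - 1} := ⟨_, rfl⟩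
  have cK : Conn {z : ℤ × ℤ | (n - P.H + z.2, P.W - 1 - z.1) ∈ P.A} :=
    h.o0.conn.preimage (fun z => (n - P.H + z.2, P.W - 1 - z.1))
      (fun z => (P.W - 1 - z.2, z.1 - (n - P.H)))
      (by intro a b; simp only [adj_iff]; omega) (by simp) (by simp)
  have sK : {z : ℤ × ℤ | (n - P.H + z.2, P.W - 1 - z.1) ∈ P.A} ⊆ Q := by
    rintro ⟨x, y⟩ hz
    have := h.o0.sub _ _ hz
    rw [hQ]
    refine ⟨fun a => h.d01 hz (x' := P.W - 1 - x) (y' := P.H - 1 - y) (by simpa using a)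
      rfl (by simp only; omega), by simp only at *; omega, by simp only at *; omega⟩
  have sD : {z : ℤ × ℤ | (n - 1 - z.2, z.1) ∈ (P.tw true true).A} ⊆ Q := by
    rintro ⟨x, y⟩ hz
    have := h.o3.sub _ _ hz
    rw [hQ]
    refine ⟨fun a => h.d30 hz a rfl (by simp), by simp only at *; omega,
      by simp only [tw_H] at *; omega⟩
  have k1 : (P.W - 1, -(n - P.H)) ∈ {z : ℤ × ℤ | (n - P.H + z.2, P.W - 1 - z.1) ∈ P.A} :=
    by simpa using h.o0.zero
  have k2 : (P.W - P.H, P.W + P.H - 1 - n) ∈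
      {z : ℤ × ℤ | (n - P.H + z.2, P.W - 1 - z.1) ∈ P.A} :=
    Set.mem_ofPred.2 (cg z1 (by simp only; omega) (by simp only; omega))
  have d1 : (0, n - 1) ∈ {z : ℤ × ℤ | (n - 1 - z.2, z.1) ∈ (P.tw true true).A} :=
    by simpa using h.o3.zero
  have main : ∀ m : ℕ, ∀ x : ℤ, x ≤ m → x ≤ P.W - P.H → (x, P.W + P.H - 1 - n) ∈ Q →
      Reach Q (x, P.W + P.H - 1 - n) (0, n - 1) := by
    intro m
    induction m using Nat.strong_induction_on with
    | _ m ih =>
    intro x hm hx hq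
    have hq' := hq
    rw [hQ] at hq'
    obtain ⟨q1, q2, -⟩ := hq'
    simp only at q2
    rcases h.cover x (P.W + P.H - 1 - n) q2 (by omega) (by omega) (by omega) with a | a | a | a
    · exact (q1 a).elim
    · have := h.o1.sub _ _ a
      simp only [tw_H] at this
      omega
    · have := h.o0.sub _ _ a
      have hq2 : (x - 1, P.W + P.H - 1 - n) ∈ Q := by
        rw [hQ]
        exact ⟨fun b => nt _ _ x _ b (by rw [adj_iff]; simp) a, by simp only; omega,
          by simp only; omega⟩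
      exact (Reach.step hq hq2 (by rw [adj_iff]; simp)).trans
        (ih (m - 1) (by omega) (x - 1) (by omega) (by omega) hq2)
    · exact (conn3 h.o3.conn n (x, P.W + P.H - 1 - n) a _ d1).mono sD
  refine crossing (P := Q) (Q := P.A) 0 (P.W - 1) (-(n - P.H)) (n - 1) ?_ ?_ ?_ (sK k1) (sD d1) z1
    (((cK _ k1 _ k2).mono sK).trans (main (P.W - P.H).toNat _ (by omega) le_rfl (sK k2)))
    (h.o0.conn _ h.o0.zero _ z1)
  · intro z hz
    rw [hQ] at hz
    exact hz.2
  · intro z hz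
    have := h.o0.sub _ _ hz
    omega
  · intro z hz
    rw [hQ] at hz
    exact hz.1

end Pool.Agent.MP_c42d5f_co.H60
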