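import Pool.Agent.MP_c42d5f_co.H60.Defs

/-! Paths of cells and the crossing lemma. -/

open Relation

namespace Pool.Agent.MP_c42d5f_co.H60

theorem adj_iff (u v : ℤ × ℤ) : Adj u v ↔ (u.1 + 1 = v.1 ∧ u.2 = v.2) ∨ (u.1 = v.1 + 1 ∧ u.2 = v.2) ∨
    (u.1 = v.1 ∧ u.2 + 1 = v.2) ∨ (u.1 = v.1 ∧ u.2 = v.2 + 1) := by
  unfold Adj
  rcases abs_cases (u.1 - v.1) with h | h <;> rcases abs_cases (u.2 - v.2) with h' | h' <;> omega

theorem Adj.symm {u v : ℤ × ℤ} (h : Adj u v) : Adj v u := by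
  rw [adj_iff] at *; omega

/-- Reachability inside a set of cells. -/
def Reach (P : Set (ℤ × ℤ)) (u v : ℤ × ℤ) : Prop :=
  ReflTransGen (fun a b => a ∈ P ∧ b ∈ P ∧ Adj a b) u v

/-- Edge-connected sets. -/
def Conn (P : Set (ℤ × ℤ)) : Prop := ∀ u ∈ P, ∀ v ∈ P, Reach P u v

theorem Reach.refl (P : Set (ℤ × ℤ)) (u : ℤ × ℤ) : Reach P u u := ReflTransGen.refl

theorem Reach.trans {P : Set (ℤ × ℤ)} {u v w : ℤ × ℤ} (h : Reach P u v) (h' : Reach P v w) :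
    Reach P u w := ReflTransGen.trans h h'

theorem Reach.step {P : Set (ℤ × ℤ)} {u v : ℤ × ℤ} (hu : u ∈ P) (hv : v ∈ P) (h : Adj u v) :
    Reach P u v := ReflTransGen.single ⟨hu, hv, h⟩

theorem Reach.symm {P : Set (ℤ × ℤ)} {u v : ℤ × ℤ} (h : Reach P u v) : Reach P v u := by
  induction h with
  | refl => exact Reach.refl _ _
  | tail _ h2 ih => exact (Reach.step h2.2.1 h2.1 h2.2.2.symm).trans ih

theorem Reach.map {P Q : Set (ℤ × ℤ)} {u v : ℤ × ℤ} (h : Reach P u v) (f : ℤ × ℤ → ℤ × ℤ)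
    (hf : ∀ a b, Adj a b → Adj (f a) (f b)) (hP : ∀ a ∈ P, f a ∈ Q) : Reach Q (f u) (f v) := by
  induction h with
  | refl => exact Reach.refl _ _
  | tail _ h2 ih => exact ih.trans (Reach.step (hP _ h2.1) (hP _ h2.2.1) (hf _ _ h2.2.2))

theorem Reach.mono {P Q : Set (ℤ × ℤ)} {u v : ℤ × ℤ} (h : Reach P u v) (hP : P ⊆ Q) :
    Reach Q u v := h.map id (fun _ _ h => h) hP

theorem Reach.ind {P : Set (ℤ × ℤ)} {u v : ℤ × ℤ} (h : Reach P u v) (p : ℤ × ℤ → Prop) (hu : p u)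
    (hs : ∀ a ∈ P, ∀ b ∈ P, Adj a b → p a → p b) : p v := by
  induction h with
  | refl => exact hu
  | tail _ h2 ih => exact hs _ h2.1 _ h2.2.1 h2.2.2 ih

theorem Conn.preimage {P : Set (ℤ × ℤ)} (h : Conn P) (f g : ℤ × ℤ → ℤ × ℤ)
    (hg : ∀ a b, Adj a b → Adj (g a) (g b)) (h1 : ∀ a, g (f a) = a) (h2 : ∀ a, f (g a) = a) :
    Conn {z | f z ∈ P} := by
  intro u hu v hv
  have := (h _ hu _ hv).map (Q := {z | f z ∈ P}) g hg (fun a ha => by simpa [h2] using ha)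
  rwa [h1, h1] at this

theorem reach_row (P : Set (ℤ × ℤ)) (y a b : ℤ) (hab : a ≤ b)
    (h : ∀ x, a ≤ x → x ≤ b → (x, y) ∈ P) : Reach P (a, y) (b, y) := by
  induction b, hab using Int.leInduction with
  | base => exact Reach.refl _ _
  | succ b hb ih =>
    exact (ih fun x h1 h2 => h x h1 (by omega)).trans
      (Reach.step (h b hb (by omega)) (h _ (by omega) le_rfl) (by rw [adj_iff]; simp))

theorem reach_col (P : Set (ℤ × ℤ)) (x a b : ℤ) (hab : a ≤ b)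
    (h : ∀ y, a ≤ y → y ≤ b → (x, y) ∈ P) : Reach P (x, a) (x, b) := by
  induction b, hab using Int.leInduction with
  | base => exact Reach.refl _ _
  | succ b hb ih =>
    exact (ih fun x h1 h2 => h x h1 (by omega)).trans
      (Reach.step (h b hb (by omega)) (h _ (by omega) le_rfl) (by rw [adj_iff]; simp))

theorem Reach.cross_x {P : Set (ℤ × ℤ)} {u v : ℤ × ℤ} (h : Reach P u v) (c : ℤ) (hu : u.1 < c)
    (hv : c ≤ v.1) : ∃ y, (c - 1, y) ∈ P ∧ (c, y) ∈ P := by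
  by_contra hc
  push Not at hc
  have := h.ind (fun z => z.1 < c) hu (by
    rintro ⟨a1, a2⟩ ha ⟨b1, b2⟩ hb hab h1
    rw [adj_iff] at hab
    simp only at hab h1 ⊢
    by_contra h2
    obtain rfl : b1 = c := by omega
    obtain rfl : a1 = b1 - 1 := by omega
    obtain rfl : a2 = b2 := by omega
    exact hc _ ha hb)
  omega

theorem Reach.cross_y {P : Set (ℤ × ℤ)} {u v : ℤ × ℤ} (h : Reach P u v) (c : ℤ) (hu : u.2 < c)
    (hv : c ≤ v.2) : ∃ x, (x, c - 1) ∈ P ∧ (x, c) ∈ P := by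
  by_contra hc
  push Not at hc
  have := h.ind (fun z => z.2 < c) hu (by
    rintro ⟨a1, a2⟩ ha ⟨b1, b2⟩ hb hab h1
    rw [adj_iff] at hab
    simp only at hab h1 ⊢
    by_contra h2
    obtain rfl : b2 = c := by omega
    obtain rfl : a2 = b2 - 1 := by omega
    obtain rfl : a1 = b1 := by omega
    exact hc _ ha hb)
  omega

/-- The signed number of vertical steps of a path to the left of a grid point. -/
theorem exists_count (R : ℤ × ℤ → ℤ × ℤ → Prop) (l r : ℤ)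
    (hb : ∀ a b, R a b → l ≤ a.1 ∧ a.1 < r ∧ l ≤ b.1 ∧ b.1 < r) {u v : ℤ × ℤ}
    (h : ReflTransGen (fun a b => R a b ∧ Adj a b) u v) :
    ∃ N : ℤ → ℤ → ℤ,
      (∀ i j, ¬ R (i, j - 1) (i, j) → ¬ R (i, j) (i, j - 1) → N i j = N (i + 1) j) ∧
      (∀ i j, ¬ R (i - 1, j) (i, j) → ¬ R (i, j) (i - 1, j) → N i j - N i (j + 1) =
        (if v.2 = j ∧ v.1 < i then 1 else 0) - (if u.2 = j ∧ u.1 < i then 1 else 0)) ∧
      (∀ j, N l j = 0) ∧
      (∀ j, N r j = (if u.2 < j then 1 else 0) - (if v.2 < j then 1 else 0)) := by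
  induction h with
  | refl => exact ⟨fun _ _ => 0, by simp, by simp, by simp, by simp⟩
  | @tail a b _ h2 ih =>
    obtain ⟨N, h1, h3, h4, h5⟩ := ih
    obtain ⟨a1, a2⟩ := a
    obtain ⟨b1, b2⟩ := b
    obtain ⟨hR, hadj⟩ := h2
    have hb' := hb _ _ hR
    rw [adj_iff] at hadj
    simp only at hb' hadj h3 h5 ⊢
    refine ⟨fun i j => N i j + (if a1 < i ∧ a2 < j then 1 else 0) * (if a1 = b1 then 1 else 0) -
      (if b1 < i ∧ b2 < j then 1 else 0) * (if a1 = b1 then 1 else 0), ?_, ?_, ?_, ?_⟩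
    · intro i j n1 n2
      have e := h1 i j n1 n2
      have c1 : ¬ (a1 = i ∧ a2 = j - 1 ∧ b1 = i ∧ b2 = j) := by
        rintro ⟨rfl, rfl, rfl, rfl⟩; exact n1 hR
      have c2 : ¬ (a1 = i ∧ a2 = j ∧ b1 = i ∧ b2 = j - 1) := by
        rintro ⟨rfl, rfl, rfl, rfl⟩; exact n2 hR
      simp only
      split_ifs <;> omega
    · intro i j n1 n2
      have e := h3 i j n1 n2
      have c1 : ¬ (a1 = i - 1 ∧ a2 = j ∧ b1 = i ∧ b2 = j) := by
        rintro ⟨rfl, rfl, rfl, rfl⟩; exact n1 hR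
      have c2 : ¬ (a1 = i ∧ a2 = j ∧ b1 = i - 1 ∧ b2 = j) := by
        rintro ⟨rfl, rfl, rfl, rfl⟩; exact n2 hR
      simp only
      generalize (if u.2 = j ∧ u.1 < i then (1 : ℤ) else 0) = c at e ⊢
      split_ifs at e ⊢ <;> omega
    · intro j
      have e := h4 j
      simp only
      split_ifs <;> omega
    · intro j
      have e := h5 j
      simp only
      generalize (if u.2 < j then (1 : ℤ) else 0) = c at e ⊢
      split_ifs at e ⊢ <;> omega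

/-- A function on grid points that separates the left from the right of a vertical path. -/
structure Sep (R : ℤ × ℤ → ℤ × ℤ → Prop) (N : ℤ → ℤ → ℤ) (l r lo hi : ℤ) : Prop where
  hor : ∀ i j, ¬ R (i, j - 1) (i, j) → ¬ R (i, j) (i, j - 1) → N i j = N (i + 1) j
  ver : ∀ i j, lo < j → j < hi → ¬ R (i - 1, j) (i, j) → ¬ R (i, j) (i - 1, j) →
    N i j = N i (j + 1)
  left : ∀ j, N l j = 0
  right : ∀ j, lo < j → j ≤ hi → N r j = 1

theorem exists_sep (R : ℤ × ℤ → ℤ × ℤ → Prop) (l r : ℤ)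
    (hb : ∀ a b, R a b → l ≤ a.1 ∧ a.1 < r ∧ l ≤ b.1 ∧ b.1 < r) {u v : ℤ × ℤ}
    (h : ReflTransGen (fun a b => R a b ∧ Adj a b) u v) : ∃ N, Sep R N l r u.2 v.2 := by
  obtain ⟨N, h1, h2, h3, h4⟩ := exists_count R l r hb h
  refine ⟨N, h1, fun i j a b c d => ?_, h3, fun j a b => ?_⟩
  · have := h2 i j c d
    split_ifs at this <;> omega
  · have := h4 j
    split_ifs at this <;> omega

theorem Sep.cell {R N l r lo hi} (h : Sep R N l r lo hi) {x y : ℤ} (h1 : lo < y) (h2 : y < hi)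
    (hc : ∀ b, ¬ R (x, y) b ∧ ¬ R b (x, y)) :
    N (x + 1) y = N x y ∧ N x (y + 1) = N x y :=
  ⟨(h.hor x y (hc _).2 (hc _).1).symm, (h.ver x y h1 h2 (hc _).2 (hc _).1).symm⟩

theorem Sep.walk {R N l r lo hi} (h : Sep R N l r lo hi) {Q : Set (ℤ × ℤ)}
    (hQ : ∀ c ∈ Q, lo < c.2 ∧ c.2 < hi ∧ ∀ b, ¬ R c b ∧ ¬ R b c) {u v : ℤ × ℤ}
    (hr : Reach Q u v) : N v.1 v.2 = N u.1 u.2 := by
  refine hr.ind (fun z => N z.1 z.2 = N u.1 u.2) rfl ?_
  rintro ⟨a1, a2⟩ ha ⟨b1, b2⟩ hb hab e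
  have h1 := h.cell (hQ _ ha).1 (hQ _ ha).2.1 (hQ _ ha).2.2
  have h2 := h.cell (hQ _ hb).1 (hQ _ hb).2.1 (hQ _ hb).2.2
  rw [adj_iff] at hab
  simp only at hab e h1 h2 ⊢
  rcases hab with ⟨rfl, rfl⟩ | ⟨rfl, rfl⟩ | ⟨rfl, rfl⟩ | ⟨rfl, rfl⟩ <;> omega

/-- The crossing lemma. -/
theorem crossing {P Q : Set (ℤ × ℤ)} (l r b t : ℤ) (hP : ∀ z ∈ P, l ≤ z.1 ∧ z.1 ≤ r)
    (hQ : ∀ z ∈ Q, b ≤ z.2 ∧ z.2 ≤ t) (hd : ∀ z ∈ P, z ∉ Q) {x1 x2 y1 y2 : ℤ}
    (p1 : (x1, b) ∈ P) (p2 : (x2, t) ∈ P) (q2 : (r, y2) ∈ Q) (h1 : Reach P (x1, b) (x2, t))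
    (h2 : Reach Q (l, y1) (r, y2)) : False := by
  let P' : Set (ℤ × ℤ) := {z | z ∈ P ∨ z = (x1, b - 1) ∨ z = (x2, t + 1)}
  have hP' : ∀ z ∈ P', l ≤ z.1 ∧ z.1 < r + 1 := by
    have a1 := hP _ p1
    have a2 := hP _ p2
    rintro z (hz | rfl | rfl)
    · have := hP z hz; omega
    · simp only at *; omega
    · simp only at *; omega
  have h3 : Reach P' (x1, b - 1) (x2, t + 1) :=
    ((Reach.step (Or.inr (Or.inl rfl)) (Or.inl p1) (by rw [adj_iff]; simp)).trans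
      (h1.mono fun z hz => Or.inl hz)).trans
      (Reach.step (Or.inl p2) (Or.inr (Or.inr rfl)) (by rw [adj_iff]; simp))
  obtain ⟨N, hN⟩ := exists_sep (fun a b => a ∈ P' ∧ b ∈ P') l (r + 1)
    (fun a b h => ⟨(hP' a h.1).1, (hP' a h.1).2, hP' b h.2⟩)
    (ReflTransGen.mono (fun a b h => ⟨⟨h.1, h.2.1⟩, h.2.2⟩) _ _ h3)
  have hQ' : ∀ c ∈ Q, b - 1 < c.2 ∧ c.2 < t + 1 ∧
      ∀ d, ¬ (c ∈ P' ∧ d ∈ P') ∧ ¬ (d ∈ P' ∧ c ∈ P') := by
    intro c hc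
    have a1 := hQ c hc
    have : c ∉ P' := by
      rintro (hz | rfl | rfl)
      · exact hd c hz hc
      · simp only at a1; omega
      · simp only at a1; omega
    exact ⟨by omega, by omega, fun d => ⟨fun h => this h.1, fun h => this h.2⟩⟩
  have e1 := hN.walk hQ' h2
  have e2 := (hN.cell (hQ' _ q2).1 (hQ' _ q2).2.1 (hQ' _ q2).2.2).1
  have e3 := hN.left y1
  have e4 := hN.right y2 (hQ' _ q2).1 (hQ' _ q2).2.1.le
  simp only at e1 e2
  omega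

/-- Two sets that meet the bottom row in the wrong order. -/
theorem bottom {P Q : Set (ℤ × ℤ)} (n m : ℤ)
    (hP : ∀ z ∈ P, 0 ≤ z.1 ∧ z.1 < n ∧ 0 ≤ z.2 ∧ z.2 < m)
    (hQ : ∀ z ∈ Q, 0 ≤ z.1 ∧ z.1 < n ∧ 0 ≤ z.2 ∧ z.2 < m) (hd : ∀ z ∈ P, z ∉ Q)
    (cP : Conn P) (cQ : Conn Q) {x1 x2 y1 y2 : ℤ} (p1 : (x1, 0) ∈ P) (p2 : (n - 1, y1) ∈ P)
    (q1 : (0, y2) ∈ Q) (q2 : (x2, 0) ∈ Q) (hx : x1 ≤ x2) : False := by
  have hne : x1 ≠ x2 := by rintro rfl; exact hd _ p1 q2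
  have a1 := hP _ p1
  have a2 := hP _ p2
  have a3 := hQ _ q2
  simp only at a1 a2 a3
  refine crossing (P := {z | z ∈ P ∨ z = (x1, -1) ∨ (z.1 = n ∧ 0 ≤ z.2)})
    (Q := {z | z ∈ Q ∨ (z.2 = -1 ∧ x2 ≤ z.1)}) 0 n (-1) m ?_ ?_ ?_ (x1 := x1) (x2 := n)
    (y1 := y2) (y2 := -1) (Or.inr (Or.inl rfl)) (Or.inr (Or.inr ⟨rfl, by simp; omega⟩))
    (Or.inr ⟨rfl, by simp; omega⟩) ?_ ?_
  · rintro z (hz | rfl | hz)
    · have := hP z hz; omega
    · simp only; omega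
    · omega
  · rintro z (hz | hz)
    · have := hQ z hz; omega
    · omega
  · rintro z (hz | rfl | hz) (hz' | hz')
    · exact hd z hz hz'
    · have := hP z hz; omega
    · have := hQ _ hz'; simp only at this; omega
    · simp only at hz'; omega
    · have := hQ _ hz'; omega
    · omega
  · refine ((Reach.step (v := (x1, 0)) (Or.inr (Or.inl rfl)) (Or.inl p1)
      (by rw [adj_iff]; simp)).trans ((cP _ p1 _ p2).mono fun z hz => Or.inl hz)).trans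
      ((Reach.step (v := (n, y1)) (Or.inl p2) (Or.inr (Or.inr ⟨rfl, a2.2.2.1⟩))
      (by rw [adj_iff]; simp)).trans (reach_col _ n y1 m (by omega) ?_))
    intro y h1 _
    exact Or.inr (Or.inr ⟨rfl, by simp only; omega⟩)
  · refine ((cQ _ q1 _ q2).mono fun z hz => Or.inl hz).trans
      ((Reach.step (v := (x2, -1)) (Or.inl q2) (Or.inr ⟨rfl, le_rfl⟩)
      (by rw [adj_iff]; simp)).trans (reach_row _ (-1) x2 n (by omega) ?_))
    intro x h1 _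
    exact Or.inr ⟨rfl, h1⟩

end Pool.Agent.MP_c42d5f_co.H60
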