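import Mathlib

/-! Polyominoes, tilings and minimal rectangles. The unit square `[x, x+1] × [y, y+1]` of the
grid is recorded as the cell `(x, y)`. -/

namespace Pool.Agent.MP_c42d5f_co.H60

/-- Two cells share an edge. -/
def Adj (u v : ℤ × ℤ) : Prop := |u.1 - v.1| + |u.2 - v.2| = 1

/-- A finite nonempty edge-connected set of cells. -/
def IsPolyomino (M : Set (ℤ × ℤ)) : Prop :=
  M.Finite ∧ M.Nonempty ∧
    ∀ u ∈ M, ∀ v ∈ M, Relation.ReflTransGen (fun a b => a ∈ M ∧ b ∈ M ∧ Adj a b) u v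

/-- The action on cells of an isometry of the plane that maps the grid to itself. -/
def IsGridIsometry (f : ℤ × ℤ → ℤ × ℤ) : Prop :=
  ∃ s t a b : ℤ, (s = 1 ∨ s = -1) ∧ (t = 1 ∨ t = -1) ∧
    ((∀ z, f z = (s * z.1 + a, t * z.2 + b)) ∨ (∀ z, f z = (s * z.2 + a, t * z.1 + b)))

/-- `F` is a tiling of the region `R` by copies of `M`. -/
def IsTiling (M R : Set (ℤ × ℤ)) (F : Set (Set (ℤ × ℤ))) : Prop :=
  (∀ T ∈ F, ∃ f, IsGridIsometry f ∧ T = f '' M) ∧ F.PairwiseDisjoint id ∧ ⋃₀ F = R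

/-- A rectangle of cells. -/
def IsRect (R : Set (ℤ × ℤ)) : Prop :=
  ∃ a b c d : ℤ, a < b ∧ c < d ∧ R = Set.Ico a b ×ˢ Set.Ico c d

/-- `P` can be tiled by `M`, but cannot be cut into two or more rectangles each of which can be
tiled by `M`. -/
def IsMinimal (M P : Set (ℤ × ℤ)) : Prop :=
  (∃ F, IsTiling M P F) ∧ ¬ ∃ G : Set (Set (ℤ × ℤ)), G.Nontrivial ∧ G.PairwiseDisjoint id ∧
    ⋃₀ G = P ∧ ∀ R ∈ G, IsRect R ∧ ∃ F, IsTiling M R F

end Pool.Agent.MP_c42d5f_co.H60
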