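import Pool.Agent.MP_c42d5f_co.H60.Stair

/-! Four corner tiles either have a fault line or are rotations of one another. -/

namespace Pool.Agent.MP_c42d5f_co.H60

variable {n : ℤ} {P P0 P1 P2 P3 : Pc}

theorem tw_inv (s t : Bool) (P : Pc) : (P.tw s t).tw s t = P := by
  rw [tw_tw]; simp [tw_ff]

theorem alt_nt (s t : Bool) (h : Cfg n P (P.tw s t) P (P.tw s t)) (nt : NT n P P)
    (hn : n < P.W + P.H) : P.tw s t = P := by
  have nt' : NT n P.sw P.sw := fun x y x' y' a b =>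
    nt y x y' x' a (by simp only [adj_iff] at b ⊢; omega)
  have hr := h.refl
  rw [tw_sw] at hr
  cases s <;> cases t
  · rfl
  · have := alt_mir hr nt'
    rw [← tw_sw] at this
    exact congrArg Pc.sw this
  · exact alt_mir h nt
  · rcases le_total P.H P.W with a | a
    · exact (alt_rot h nt a hn).elim
    · exact (alt_rot hr nt' a (by simp only [sw_W, sw_H]; omega)).elim

theorem alt (s t : Bool) (h : Cfg n P (P.tw s t) P (P.tw s t)) (hn : n < P.W + P.H) :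
    P.tw s t = P := by
  rcases h.nt with a | a
  · exact alt_nt s t h a hn
  · have h' := h.shift
    have := alt_nt (P := P.tw s t) s t (by rwa [tw_inv]) a hn
    rw [tw_inv] at this
    exact this.symm

theorem two_types (s t : Bool) (h : Cfg n P P1 P2 P3) (hn : n < P.W + P.H)
    (h1 : P1 = P ∨ P1 = P.tw s t) (h2 : P2 = P ∨ P2 = P.tw s t) (h3 : P3 = P ∨ P3 = P.tw s t) :
    P1 = P ∧ P2 = P ∧ P3 = P := by
  have sy : ∀ {Q : Pc}, (∀ x y, ¬ ((x, y) ∈ Q.A ↔ (x, y) ∈ P.A) →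
      ¬ ((n - 1 - x, n - 1 - y) ∈ Q.A ↔ (n - 1 - x, n - 1 - y) ∈ P.A)) →
      ∀ x y, ¬ ((x, y) ∈ P.A ↔ (x, y) ∈ Q.A) →
      ¬ ((n - 1 - x, n - 1 - y) ∈ P.A ↔ (n - 1 - x, n - 1 - y) ∈ Q.A) :=
    fun a x y b c => a x y (fun d => b d.symm) c.symm
  rcases h1 with h1 | h1 <;> rcases h2 with h2 | h2 <;> rcases h3 with h3 | h3 <;>
    rw [h1, h2, h3] at h ⊢
  · exact ⟨rfl, rfl, rfl⟩
  · simp [glide s t h.o0 h.o3 (sy (pat13 h.shift.shift.shift))]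
  · simp [glide s t h.o0 h.o2 (sy (pat13 h.shift.shift))]
  · simp [glide s t h.o0 h.o2 (pat22 h)]
  · simp [glide s t h.o0 h.o1 (sy (pat13 h.shift))]
  · simp [alt s t h hn]
  · simp [glide s t h.o0 h.o1 (pat22 h.shift.shift.shift)]
  · simp [glide s t h.o0 h.o1 (pat13 h)]

theorem bool_two (C : Bool → Bool → Prop) (s1 t1 s2 t2 s3 t3 : Bool) (c0 : C false false)
    (c1 : C s1 t1) (c2 : C s2 t2) (c3 : C s3 t3) (n0 : C true false → ¬ C s1 (!t1))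
    (n1 : C (!s1) t1 → ¬ C s2 (!t2)) (n2 : C (!s2) t2 → ¬ C s3 (!t3))
    (n3 : C (!s3) t3 → ¬ C false true) :
    ∃ s t, ((s1 = false ∧ t1 = false) ∨ (s1 = s ∧ t1 = t)) ∧
      ((s2 = false ∧ t2 = false) ∨ (s2 = s ∧ t2 = t)) ∧
      ((s3 = false ∧ t3 = false) ∨ (s3 = s ∧ t3 = t)) := by
  cases s1 <;> cases t1 <;> cases s2 <;> cases t2 <;> cases s3 <;> cases t3 <;> simp_all

theorem bl_tw {s t s' t' : Bool} (h : Cfg n (P.tw s t) (P.tw s' t') P2 P3) (hn : n < P.W + P.H)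
    (a : (fl (!s) P.W 0, fl t P.H 0) ∈ P.A) : (fl s' P.W 0, fl (!t') P.H 0) ∉ P.A := by
  intro b
  refine h.bl (x := P.W - 1) (y := P.H - 1) ?_ ?_ (by omega)
  · cases s <;> simpa using a
  · cases t' <;> simpa using b

theorem klein (s1 t1 s2 t2 s3 t3 : Bool) (h : Cfg n P (P.tw s1 t1) (P.tw s2 t2) (P.tw s3 t3)) :
    (P.tw s1 t1).A = P.A ∧ (P.tw s2 t2).A = P.A ∧ (P.tw s3 t3).A = P.A := by
  by_cases hn : n < P.W + P.H
  · obtain ⟨s, t, a, b, c⟩ := bool_two (fun s t => (fl s P.W 0, fl t P.H 0) ∈ P.A)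
      s1 t1 s2 t2 s3 t3 h.o0.zero h.o1.zero h.o2.zero h.o3.zero
      (bl_tw (s := false) (t := false) h hn) (bl_tw h.shift hn) (bl_tw h.shift.shift hn)
      (bl_tw (s' := false) (t' := false) h.shift.shift.shift hn)
    obtain ⟨e1, e2, e3⟩ := two_types s t h hn
      (by rcases a with ⟨rfl, rfl⟩ | ⟨rfl, rfl⟩ <;> simp [tw_ff])
      (by rcases b with ⟨rfl, rfl⟩ | ⟨rfl, rfl⟩ <;> simp [tw_ff])
      (by rcases c with ⟨rfl, rfl⟩ | ⟨rfl, rfl⟩ <;> simp [tw_ff])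
    rw [e1, e2, e3]
    exact ⟨rfl, rfl, rfl⟩
  · have e1 : ∀ x y x' y', (0 ≤ x ∧ x < P.W ∧ 0 ≤ y ∧ y < P.H) →
        (0 ≤ x' ∧ x' < P.W ∧ 0 ≤ y' ∧ y' < P.H) → x' = y → y' = n - 1 - x → False := by
      intros; omega
    have e2 : ∀ x y x' y', (0 ≤ x ∧ x < P.W ∧ 0 ≤ y ∧ y < P.H) →
        (0 ≤ x' ∧ x' < P.W ∧ 0 ≤ y' ∧ y' < P.H) → x' = n - 1 - x → y' = n - 1 - y → False := by
      intros; omega
    have i0 := h.final _ h.o1.sub h.o2.sub h.o3.sub e1 e2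
    have i1 := h.shift.final _ h.o2.sub h.o3.sub h.o0.sub e1 e2
    have i2 := h.shift.shift.final _ h.o3.sub h.o0.sub h.o1.sub e1 e2
    have i3 := h.shift.shift.shift.final _ h.o0.sub h.o1.sub h.o2.sub e1 e2
    exact ⟨i0.antisymm (i3.trans (i2.trans i1)), (i1.trans i0).antisymm (i3.trans i2),
      (i2.trans (i1.trans i0)).antisymm i3⟩

/-- Congruent pieces. -/
def Rel (P Q : Pc) : Prop := ∃ s t, Q = P.tw s t ∨ Q = P.sw.tw s t

theorem Rel.dim {P Q : Pc} (h : Rel P Q) : Dim P Q := by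
  obtain ⟨s, t, rfl | rfl⟩ := h
  · exact Or.inl ⟨rfl, rfl⟩
  · exact Or.inr ⟨rfl, rfl⟩

theorem cfg_main {k : ℤ} (h : Cfg (2 * k) P0 P1 P2 P3) (r1 : Rel P0 P1) (r2 : Rel P1 P2)
    (r3 : Rel P2 P3) (q0 : NoSq k P0) (q1 : NoSq k P1) (q2 : NoSq k P2) (q3 : NoSq k P3) :
    Fault (2 * k) P0 P1 P2 P3 ∨ (P1.A = P0.A ∧ P2.A = P0.A ∧ P3.A = P0.A) := by
  have d1 := r1.dim
  have d2 := r2.dim
  have d3 := r3.dim
  obtain ⟨s1, t1, rfl | rfl⟩ := r1
  · obtain ⟨s2, t2, rfl | rfl⟩ := r2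
    · obtain ⟨s3, t3, rfl | rfl⟩ := r3
      · simp only [tw_tw] at h ⊢
        exact Or.inr (klein _ _ _ _ _ _ h)
      · exact Or.inl (swap_case _ _ h.shift.shift q2 q3 (by unfold Dim at *; omega)
          (by unfold Dim at *; omega)).shift.shift
    · exact Or.inl (swap_case _ _ h.shift q1 q2 (by unfold Dim at *; omega)
        (by unfold Dim at *; omega)).shift
  · exact Or.inl (swap_case _ _ h q0 q1 (by unfold Dim at *; omega) (by unfold Dim at *; omega))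

end Pool.Agent.MP_c42d5f_co.H60
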