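import Pool.Agent.MP_c42d5f_co.H60.Top

/-! The main theorem. -/

open Set

namespace Pool.Agent.MP_c42d5f_co.H60

theorem ncard_sq (n : ℕ) : (Ico (0 : ℤ) n ×ˢ Ico (0 : ℤ) n).ncard = n ^ 2 := by
  rw [← Finset.coe_Ico, ← Finset.coe_product, ncard_coe_finset]
  simp [sq]

theorem nosq {k : ℕ} {n : ℤ} {P : Pc} (o : P.Ok n) (h : P.A.ncard = k ^ 2) : NoSq k P := by
  intro a
  have fin : P.A.Finite := ((finite_Ico 0 P.W).prod (finite_Ico 0 P.H)).subset fun z hz => by
    have := o.sub _ _ hz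
    exact ⟨⟨this.1, this.2.1⟩, this.2.2⟩
  have e := eq_of_subset_of_ncard_le (s := Ico (0 : ℤ) k ×ˢ Ico (0 : ℤ) k) (t := P.A)
    (fun z hz => a _ _ hz.1.1 hz.1.2 hz.2.1 hz.2.2) (by rw [h, ncard_sq]) fin
  obtain ⟨y, b⟩ := o.right
  obtain ⟨x, c⟩ := o.top
  rw [← e] at b c
  have := b.1.2
  have := c.2.2
  simp only at *
  omega

theorem not_minimal {M : Set (ℤ × ℤ)} {F : Set (Set (ℤ × ℤ))} {S R1 R2 : Set (ℤ × ℤ)}
    (h : IsTiling M S F) (r1 : IsRect R1) (r2 : IsRect R2) (hd : Disjoint R1 R2)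
    (hu : R1 ∪ R2 = S) (hF : ∀ T ∈ F, T ⊆ R1 ∨ T ⊆ R2) : ¬ IsMinimal M S := by
  have key : ∀ R R' : Set (ℤ × ℤ), Disjoint R R' → R ⊆ S → (∀ T ∈ F, T ⊆ R ∨ T ⊆ R') →
      IsTiling M R {T ∈ F | T ⊆ R} := by
    intro R R' a b c
    refine ⟨fun T d => h.1 T d.1, h.2.1.subset fun T d => d.1,
      Subset.antisymm (sUnion_subset fun T d => d.2) fun z d => ?_⟩
    obtain ⟨T, e, f⟩ := h.2.2.symm.subset (b d)
    exact ⟨T, ⟨e, (c T e).resolve_right fun g => disjoint_left.1 a d (g f)⟩, f⟩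
  have ne : R1 ≠ R2 := by
    rintro rfl
    obtain ⟨a, b, c, d, e, f, rfl⟩ := r1
    have : (a, c) ∈ Ico a b ×ˢ Ico c d := ⟨⟨le_rfl, e⟩, le_rfl, f⟩
    exact disjoint_left.1 hd this this
  refine fun m => m.2 ⟨{R1, R2}, nontrivial_pair ne, ?_, by simpa using hu, ?_⟩
  · rintro _ (rfl | rfl) _ (rfl | rfl) a
    · exact (a rfl).elim
    · exact hd
    · exact hd.symm
    · exact (a rfl).elim
  · rintro R (rfl | rfl)
    · exact ⟨r1, _, key _ R2 hd (hu ▸ subset_union_left) hF⟩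
    · exact ⟨r2, _, key _ R1 hd.symm (hu ▸ subset_union_right) fun T a => (hF T a).symm⟩

theorem main (k : ℕ) (hk : 1 ≤ k) (M : Set (ℤ × ℤ)) (hM : IsPolyomino M) (hc : M.ncard = k ^ 2)
    (hmin : IsMinimal M (Ico (0 : ℤ) (2 * k) ×ˢ Ico (0 : ℤ) (2 * k))) (F : Set (Set (ℤ × ℤ)))
    (hF : IsTiling M (Ico (0 : ℤ) (2 * k) ×ˢ Ico (0 : ℤ) (2 * k)) F) :
    ∀ T ∈ F, (fun z : ℤ × ℤ => (2 * (k : ℤ) - 1 - z.2, z.1)) '' T ∈ F := by
  obtain ⟨n, hn⟩ : ∃ n : ℤ, n = 2 * k := ⟨_, rfl⟩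
  have cS : (Ico (0 : ℤ) (2 * k) ×ˢ Ico (0 : ℤ) (2 * k)).ncard = 4 * k ^ 2 := by
    have := ncard_sq (2 * k)
    push_cast at this
    rw [this]; ring
  rw [← hn] at hmin hF cS ⊢
  have fS : (Ico (0 : ℤ) n ×ˢ Ico (0 : ℤ) n).Finite := (finite_Ico _ _).prod (finite_Ico _ _)
  have hsub : ∀ T ∈ F, T ⊆ Ico (0 : ℤ) n ×ˢ Ico (0 : ℤ) n := fun T a =>
    hF.2.2 ▸ subset_sUnion_of_mem a
  have hcong : ∀ T ∈ F, Cong M T := by
    intro T a
    obtain ⟨f, b, rfl⟩ := hF.1 T a
    exact b.cong M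
  have hcard : ∀ T ∈ F, T.ncard = k ^ 2 := fun T a => (hcong T a).ncard ▸ hc
  have hk2 : 0 < k ^ 2 := by positivity
  have til : Til n F := by
    refine ⟨fun T a x y b => ?_, fun x y a b c d => ?_, fun T a U b z c d => ?_, fun T a => ?_,
      fun T a U b => (hcong T a).symm.trans (hcong U b), fun T a U b => ?_⟩
    · have := hsub T a b
      exact ⟨this.1.1, this.1.2, this.2⟩
    · exact hF.2.2.symm.subset (show (x, y) ∈ Ico 0 n ×ˢ Ico 0 n from ⟨⟨a, b⟩, c, d⟩)
    · by_contra e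
      exact disjoint_left.1 (hF.2.1 a b e) c d
    · obtain ⟨f, b, rfl⟩ := hF.1 T a
      rintro _ ⟨u, c, rfl⟩ _ ⟨v, d, rfl⟩
      exact Reach.map (hM.2.2 u c v d) f b.adj fun z e => mem_image_of_mem f e
    · by_contra c
      push Not at c
      have : Ico (0 : ℤ) n ×ˢ Ico (0 : ℤ) n ⊆ T ∪ U := by
        intro z d
        obtain ⟨V, e, f⟩ := hF.2.2.symm.subset d
        by_cases g : V = T
        · exact Or.inl (g ▸ f)
        · exact Or.inr (c V e g ▸ f)
      have h1 := ncard_le_ncard this ((fS.subset (hsub T a)).union (fS.subset (hsub U b)))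
      have h2 := ncard_union_le T U
      rw [hcard T a, hcard U b] at h2
      omega
  have noH : ∀ c, 0 < c → c < n → ¬ ∀ T ∈ F, (∀ z ∈ T, z.2 < c) ∨ (∀ z ∈ T, c ≤ z.2) := by
    intro c a b d
    refine not_minimal hF (R1 := Ico 0 n ×ˢ Ico 0 c) (R2 := Ico 0 n ×ˢ Ico c n)
      ⟨_, _, _, _, by omega, a, rfl⟩ ⟨_, _, _, _, by omega, b, rfl⟩ ?_ ?_ ?_ hmin
    · exact disjoint_left.2 fun z e f => absurd e.2.2 (not_lt.2 f.2.1)
    · rw [← prod_union, Ico_union_Ico_eq_Ico a.le b.le]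
    · intro T e
      exact (d T e).imp (fun f z g => ⟨(hsub T e g).1, (hsub T e g).2.1, f z g⟩)
        (fun f z g => ⟨(hsub T e g).1, f z g, (hsub T e g).2.2⟩)
  have noV : ∀ c, 0 < c → c < n → ¬ ∀ T ∈ F, (∀ z ∈ T, z.1 < c) ∨ (∀ z ∈ T, c ≤ z.1) := by
    intro c a b d
    refine not_minimal hF (R1 := Ico 0 c ×ˢ Ico 0 n) (R2 := Ico c n ×ˢ Ico 0 n)
      ⟨_, _, _, _, a, by omega, rfl⟩ ⟨_, _, _, _, b, by omega, rfl⟩ ?_ ?_ ?_ hmin
    · exact disjoint_left.2 fun z e f => absurd e.1.2 (not_lt.2 f.1.1)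
    · rw [← union_prod, Ico_union_Ico_eq_Ico a.le b.le]
    · intro T e
      exact (d T e).imp (fun f z g => ⟨⟨(hsub T e g).1.1, f z g⟩, (hsub T e g).2⟩)
        (fun f z g => ⟨⟨f z g, (hsub T e g).1.2⟩, (hsub T e g).2⟩)
  have spH : ∀ T ∈ F, ∀ y1 y2, (0, y1) ∈ T → (n - 1, y2) ∉ T := by
    intro T a y1 y2 b c
    obtain ⟨d, e, f, g⟩ := span til a b c
    exact noH d e f g
  have spV : ∀ T ∈ F, ∀ x1 x2, (x1, 0) ∈ T → (x2, n - 1) ∉ T := by
    intro T a y1 y2 b c
    obtain ⟨d, e, f, g⟩ := span til.sw (mem_image_of_mem _ a) (y1 := y1) (y2 := y2) b c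
    exact noV d e f fun U i => (g _ (mem_image_of_mem _ i)).imp
      (fun j z l => j (z.2, z.1) l) (fun j z l => j (z.2, z.1) l)
  obtain ⟨A, hA, zA⟩ := til.cover 0 0 (by omega) (by omega) (by omega) (by omega)
  obtain ⟨B, hB, zB⟩ := til.cover (n - 1) 0 (by omega) (by omega) (by omega) (by omega)
  obtain ⟨C, hC, zC⟩ := til.cover (n - 1) (n - 1) (by omega) (by omega) (by omega) (by omega)
  obtain ⟨D, hD, zD⟩ := til.cover 0 (n - 1) (by omega) (by omega) (by omega) (by omega)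
  have nAB : A ≠ B := by rintro rfl; exact spH _ hA _ _ zA zB
  have nAC : A ≠ C := by rintro rfl; exact spH _ hA _ _ zA zC
  have nAD : A ≠ D := by rintro rfl; exact spV _ hA _ _ zA zD
  have nBC : B ≠ C := by rintro rfl; exact spV _ hB _ _ zB zC
  have nBD : B ≠ D := by rintro rfl; exact spV _ hB _ _ zB zD
  have nCD : C ≠ D := by rintro rfl; exact spH _ hD _ _ zD zC
  have four : ∀ T ∈ F, T = A ∨ T = B ∨ T = C ∨ T = D := by
    intro T a
    by_contra b
    push Not at b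
    have fi : ∀ T ∈ F, T.Finite := fun T a => fS.subset (hsub T a)
    have h1 := ncard_le_ncard (union_subset (union_subset (union_subset (union_subset
      (hsub A hA) (hsub B hB)) (hsub C hC)) (hsub D hD)) (hsub T a)) fS
    rw [ncard_union_eq _ ((((fi A hA).union (fi B hB)).union (fi C hC)).union (fi D hD)) (fi T a),
      ncard_union_eq _ (((fi A hA).union (fi B hB)).union (fi C hC)) (fi D hD),
      ncard_union_eq _ ((fi A hA).union (fi B hB)) (fi C hC),
      ncard_union_eq (s := A) (t := B) (hF.2.1 hA hB nAB) (fi A hA) (fi B hB), hcard A hA, hcard B hB, hcard C hC,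
      hcard D hD, hcard T a] at h1
    · omega
    · exact disjoint_union_left.2 ⟨hF.2.1 hA hC nAC, hF.2.1 hB hC nBC⟩
    · exact disjoint_union_left.2 ⟨disjoint_union_left.2 ⟨hF.2.1 hA hD nAD, hF.2.1 hB hD nBD⟩,
        hF.2.1 hC hD nCD⟩
    · exact disjoint_union_left.2 ⟨disjoint_union_left.2 ⟨disjoint_union_left.2
        ⟨hF.2.1 hA a b.1.symm, hF.2.1 hB a b.2.1.symm⟩, hF.2.1 hC a b.2.2.1.symm⟩,
        hF.2.1 hD a b.2.2.2.symm⟩
  obtain ⟨P0, e0, o0⟩ := exists_pc (til.sub A hA) zA (til.conn A hA) (fun y => spH A hA _ y zA)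
    (fun x => spV A hA _ x zA)
  obtain ⟨P1, e1, o1⟩ := exists_pc (n := n) (A := {z | (n - 1 - z.2, z.1) ∈ B})
    (fun x y a => by have := til.sub B hB _ _ a; simp only at this; omega) (by simpa using zB)
    (conn3 (til.conn B hB) n) (fun y => spV B hB _ _ zB)
    (fun x a => spH B hB x _ (by simpa using a) zB)
  obtain ⟨P2, e2, o2⟩ := exists_pc (n := n) (A := {z | (n - 1 - z.1, n - 1 - z.2) ∈ C})
    (fun x y a => by have := til.sub C hC _ _ a; simp only at this; omega) (by simpa using zC)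
    (conn2 (til.conn C hC) n) (fun y a => spH C hC (n - 1 - y) _ (by simpa using a) zC)
    (fun x a => spV C hC (n - 1 - x) _ (by simpa using a) zC)
  obtain ⟨P3, e3, o3⟩ := exists_pc (n := n) (A := {z | (z.2, n - 1 - z.1) ∈ D})
    (fun x y a => by have := til.sub D hD _ _ a; simp only at this; omega) (by simpa using zD)
    (conn1 (til.conn D hD) n) (fun y a => spV D hD y _ (by simpa using a) zD)
    (fun x => spH D hD _ _ zD)
  have m0 : ∀ x y, (x, y) ∈ P0.A ↔ (x, y) ∈ A := fun x y => by rw [e0]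
  have m1 : ∀ x y, (x, y) ∈ P1.A ↔ (n - 1 - y, x) ∈ B := fun x y => by rw [e1]; rfl
  have m2 : ∀ x y, (x, y) ∈ P2.A ↔ (n - 1 - x, n - 1 - y) ∈ C := fun x y => by rw [e2]; rfl
  have m3 : ∀ x y, (x, y) ∈ P3.A ↔ (y, n - 1 - x) ∈ D := fun x y => by rw [e3]; rfl
  have c0 : Cong P0.A A := ⟨1, 1, 0, 0, by simp, by simp, Or.inl fun x y => by simp [m0]⟩
  have c1 : Cong P1.A B := ⟨-1, 1, n - 1, 0, by simp, by simp,
    Or.inr fun x y => (m1 x y).trans (cgi (by ring) (by ring))⟩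
  have c2 : Cong P2.A C := ⟨-1, -1, n - 1, n - 1, by simp, by simp,
    Or.inl fun x y => (m2 x y).trans (cgi (by ring) (by ring))⟩
  have c3 : Cong P3.A D := ⟨1, -1, 0, n - 1, by simp, by simp,
    Or.inr fun x y => (m3 x y).trans (cgi (by ring) (by ring))⟩
  have cfg : Cfg n P0 P1 P2 P3 := by
    refine ⟨o0, o1, o2, o3, fun x y a b c d => ?_, ?_, ?_, ?_, ?_, ?_, ?_⟩
    · obtain ⟨T, e, f⟩ := til.cover x y a b c d
      rw [m0, m1, m2, m3]
      simp only [sub_sub_cancel]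
      rcases four T e with rfl | rfl | rfl | rfl <;> simp [f]
    · intro x y x' y' a b c d
      exact nAB (til.disj A hA B hB _ ((m0 _ _).1 a) (cg ((m1 _ _).1 b) (by omega) (by omega)))
    · intro x y x' y' a b c d
      exact nBC (til.disj B hB C hC _ ((m1 _ _).1 a) (cg ((m2 _ _).1 b) (by omega) (by omega)))
    · intro x y x' y' a b c d
      exact nCD (til.disj C hC D hD _ ((m2 _ _).1 a) (cg ((m3 _ _).1 b) (by omega) (by omega)))
    · intro x y x' y' a b c d
      exact nAD (til.disj A hA D hD _ ((m0 _ _).1 b) (cg ((m3 _ _).1 a) (by omega) (by omega)))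
    · intro x y x' y' a b c d
      exact nAC (til.disj A hA C hC _ ((m0 _ _).1 a) (cg ((m2 _ _).1 b) (by omega) (by omega)))
    · intro x y x' y' a b c d
      exact nBD (til.disj B hB D hD _ ((m1 _ _).1 a) (cg ((m3 _ _).1 b) (by omega) (by omega)))
  rcases cfg_main (k := k) (hn ▸ cfg)
    (rel_of_cong o0 o1 (c0.trans ((til.cong A hA B hB).trans c1.symm)))
    (rel_of_cong o1 o2 (c1.trans ((til.cong B hB C hC).trans c2.symm)))
    (rel_of_cong o2 o3 (c2.trans ((til.cong C hC D hD).trans c3.symm)))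
    (nosq o0 (c0.ncard.trans (hcard A hA))) (nosq o1 (c1.ncard.trans (hcard B hB)))
    (nosq o2 (c2.ncard.trans (hcard C hC))) (nosq o3 (c3.ncard.trans (hcard D hD))) with
    ⟨c, f⟩ | ⟨f1, f2, f3⟩
  · have s0 : ∀ z ∈ A, z.1 < P0.W ∧ z.2 < P0.H := fun z a => by
      have := o0.sub z.1 z.2 ((m0 _ _).2 a); omega
    have s1 : ∀ z ∈ B, n - P1.H ≤ z.1 ∧ z.2 < P1.W := fun z a => by
      have := o1.sub z.2 (n - 1 - z.1) ((m1 _ _).2 (by simpa using a)); omega
    have s2 : ∀ z ∈ C, n - P2.W ≤ z.1 ∧ n - P2.H ≤ z.2 := fun z a => by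
      have := o2.sub (n - 1 - z.1) (n - 1 - z.2) ((m2 _ _).2 (by simpa using a)); omega
    have s3 : ∀ z ∈ D, z.1 < P3.H ∧ n - P3.W ≤ z.2 := fun z a => by
      have := o3.sub (n - 1 - z.2) z.1 ((m3 _ _).2 (by simpa using a)); omega
    have := o0.sub _ _ o0.zero
    have := o2.sub _ _ o2.zero
    rcases f with f | f
    · refine (noV c (by omega) (by omega) fun T a => ?_).elim
      rcases four T a with rfl | rfl | rfl | rfl
      · exact Or.inl fun z b => by have := s0 z b; omega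
      · exact Or.inr fun z b => by have := s1 z b; omega
      · exact Or.inr fun z b => by have := s2 z b; omega
      · exact Or.inl fun z b => by have := s3 z b; omega
    · refine (noH c (by omega) (by omega) fun T a => ?_).elim
      rcases four T a with rfl | rfl | rfl | rfl
      · exact Or.inl fun z b => by have := s0 z b; omega
      · exact Or.inl fun z b => by have := s1 z b; omega
      · exact Or.inr fun z b => by have := s2 z b; omega
      · exact Or.inr fun z b => by have := s3 z b; omega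
  · have img : ∀ T U : Set (ℤ × ℤ), (∀ x y, (x, y) ∈ T ↔ (n - 1 - y, x) ∈ U) →
        (fun z : ℤ × ℤ => (n - 1 - z.2, z.1)) '' T = U := by
      intro T U a
      ext ⟨x, y⟩
      constructor
      · rintro ⟨z, b, c⟩
        exact c ▸ (a _ _).1 b
      · intro b
        exact ⟨(y, n - 1 - x), (a _ _).2 (by simpa using b), by simp⟩
    intro T a
    rcases four T a with rfl | rfl | rfl | rfl
    · rwa [img _ B fun x y => by rw [← m1, f1, m0]]
    · rwa [img _ C fun x y => by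
        have := m1 y (n - 1 - x)
        have h2 := m2 y (n - 1 - x)
        simp only [sub_sub_cancel] at this h2
        rw [← this, ← h2, f1, f2]]
    · rwa [img _ D fun x y => by
        have := m2 (n - 1 - x) (n - 1 - y)
        have h2 := m3 (n - 1 - x) (n - 1 - y)
        simp only [sub_sub_cancel] at this h2
        rw [← this, ← h2, f2, f3]]
    · rwa [img _ A fun x y => by
        have := m3 (n - 1 - y) x
        simp only [sub_sub_cancel] at this
        rw [← this, f3, m0]]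

end Pool.Agent.MP_c42d5f_co.H60
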