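import Pool.Agent.MP_c42d5f_co.H60.Cfg

/-! The case of mirror images alternating around the square. -/

open Relation

namespace Pool.Agent.MP_c42d5f_co.H60

/-- Nonnegative multiples of `e`. -/
def Mult (e J : ℤ) : Prop := ∃ j : ℕ, J = j * e

theorem Mult.zero (e : ℤ) : Mult e 0 := ⟨0, by simp⟩

theorem Mult.add {e J : ℤ} (h : Mult e J) : Mult e (J + e) := by
  obtain ⟨j, rfl⟩ := h
  exact ⟨j + 1, by push_cast; ring⟩

theorem Mult.cases {e J : ℤ} (he : 0 < e) (h : Mult e J) : J = 0 ∨ (e ≤ J ∧ Mult e (J - e)) := by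
  obtain ⟨j, rfl⟩ := h
  cases j with
  | zero => left; simp
  | succ j =>
    right
    refine ⟨?_, j, by push_cast; ring⟩
    push_cast
    nlinarith [Int.natCast_nonneg j]

theorem Mult.gap {e J K : ℤ} (he : 0 < e) (h : Mult e J) (h' : Mult e K) : K ≤ J ∨ J + e ≤ K := by
  obtain ⟨j, rfl⟩ := h
  obtain ⟨i, rfl⟩ := h'
  rcases le_or_gt i j with a | a
  · left
    have : (i : ℤ) ≤ j := by exact_mod_cast a
    nlinarith
  · right
    have : (j : ℤ) + 1 ≤ i := by exact_mod_cast a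
    nlinarith

/-- The edge number `s` of the staircase, with the cells on its two sides. -/
def LE (e ux uy vx vy s : ℤ) : Prop :=
  ∃ J, Mult e J ∧ ((ux = J ∧ J ≤ uy ∧ uy < J + e ∧ vx = J - 1 ∧ vy = uy ∧ s = J + uy) ∨
    (uy = J + e - 1 ∧ J ≤ ux ∧ ux < J + e ∧ vx = ux ∧ vy = J + e ∧ s = ux + J + e))

theorem LE.pred {e ux uy vx vy s : ℤ} (he : 0 < e) (h : LE e ux uy vx vy s) (hs : e ≤ s) :
    LE e (vy - e) vx (uy - e) ux (s - e) := by
  obtain ⟨J, hJ, h | h⟩ := h
  · rcases hJ.cases he with a | a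
    · omega
    · exact ⟨J - e, a.2, Or.inr (by omega)⟩
  · exact ⟨J, hJ, Or.inl (by omega)⟩

theorem LE.base {e ux uy vx vy s : ℤ} (he : 0 < e) (h : LE e ux uy vx vy s) (hs : s < e) :
    ux = 0 ∧ 0 ≤ uy ∧ uy < e ∧ vx = -1 ∧ vy = uy := by
  obtain ⟨J, hJ, h⟩ := h
  have := hJ.cases he
  omega

theorem LE.nonneg {e ux uy vx vy s : ℤ} (he : 0 < e) (h : LE e ux uy vx vy s) : 0 ≤ s := by
  obtain ⟨J, hJ, h⟩ := h
  have := hJ.cases he
  omega

theorem LE.dir {e ux uy vx vy s : ℤ} (h : LE e ux uy vx vy s) :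
    (vx = ux - 1 ∧ vy = uy) ∨ (vx = ux ∧ vy = uy + 1) := by
  obtain ⟨J, hJ, h⟩ := h
  omega

theorem LE.far {e : ℤ} (he : 0 < e) (b : ℤ) : ∃ ux uy vx vy s, LE e ux uy vx vy s ∧ b ≤ ux ∧
    b ≤ vx := by
  refine ⟨_, _, _, _, _, ⟨((b + 1).toNat : ℤ) * e, ⟨_, rfl⟩,
    Or.inl ⟨rfl, le_rfl, by omega, rfl, rfl, rfl⟩⟩, ?_, ?_⟩
  all_goals
    have h1 : b + 1 ≤ ((b + 1).toNat : ℤ) := by omega
    nlinarith [Int.natCast_nonneg (b + 1).toNat]

/-- The pyramid of steps of size `e` over a base of length `W`. -/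
def Pyr (e W x y : ℤ) : Prop := ∃ J, Mult e J ∧ J ≤ y ∧ y < J + e ∧ J ≤ x ∧ J ≤ W - 1 - x

variable {n : ℤ}

theorem sub_pyr {P : Pc} (h : Cfg n P (P.tw true false) P (P.tw true false)) (nt : NT n P P) :
    ∀ x y, (x, y) ∈ P.A → Pyr (n - P.W) P.W x y := by
  have hW := h.o0.ltW
  have hH := h.o0.ltH
  have sub := h.o0.sub
  have hz := sub _ _ h.o0.zero
  obtain ⟨e, hE⟩ : ∃ e, e = n - P.W := ⟨_, rfl⟩
  rw [← hE]
  have he : 0 < e := by omega
  obtain ⟨B, hB⟩ : ∃ B : Set (ℤ × ℤ), B = {z | (z.2, n - 1 - z.1) ∈ (P.tw true false).A} :=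
    ⟨_, rfl⟩
  obtain ⟨C, hC⟩ : ∃ C : Set (ℤ × ℤ), C = {z | (n - 1 - z.1, n - 1 - z.2) ∈ P.A} := ⟨_, rfl⟩
  obtain ⟨D, hD⟩ : ∃ D : Set (ℤ × ℤ), D = {z | (n - 1 - z.2, z.1) ∈ (P.tw true false).A} :=
    ⟨_, rfl⟩
  have cB : Conn B := hB ▸ conn1 h.o1.conn n
  have cC : Conn C := hC ▸ conn2 h.o2.conn n
  have cD : Conn D := hD ▸ conn3 h.o3.conn n
  have mB : ∀ x y, (x, y) ∈ B ↔ (P.W - 1 - y, n - 1 - x) ∈ P.A := by
    intro x y; rw [hB]; rfl
  have mC : ∀ x y, (x, y) ∈ C ↔ (n - 1 - x, n - 1 - y) ∈ P.A := by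
    intro x y; rw [hC]; rfl
  have mD : ∀ x y, (x, y) ∈ D ↔ (y - e, x) ∈ P.A := by
    intro x y
    have : y - e = P.W - 1 - (n - 1 - y) := by omega
    rw [hD, this]; rfl
  have cov : ∀ x y, 0 ≤ x → x < n → 0 ≤ y → y < n →
      (x, y) ∈ P.A ∨ (x, y) ∈ B ∨ (x, y) ∈ C ∨ (x, y) ∈ D := by
    intro x y a b c d
    rw [hB, hC, hD]; exact h.cover x y a b c d
  have dAB : ∀ z ∈ P.A, z ∉ B := by
    rw [hB]; exact fun z a b => h.d01 a b rfl rfl
  have dAC : ∀ z ∈ P.A, z ∉ C := by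
    rw [hC]; exact fun z a b => h.d02 a b rfl rfl
  have dAD : ∀ z ∈ P.A, z ∉ D := by
    rw [hD]; exact fun z a b => h.d30 b a rfl (by omega)
  have dBD : ∀ z ∈ B, z ∉ D := by
    rw [hB, hD]; exact fun z a b => h.d13 a b rfl (by omega)
  have dCD : ∀ z ∈ C, z ∉ D := by
    rw [hC, hD]; exact fun z a b => h.d23 a b rfl (by omega)
  have zB : (n - 1, 0) ∈ B := by rw [hB]; simpa using h.o1.zero
  have zC : (n - 1, n - 1) ∈ C := by rw [hC]; simpa using h.o0.zero
  have zD : (0, n - 1) ∈ D := by rw [hD]; simpa using h.o1.zero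
  have sB : ∀ x y, (x, y) ∈ B → n - P.H ≤ x ∧ x < n ∧ 0 ≤ y ∧ y < P.W := by
    intro x y a; have := sub _ _ ((mB _ _).1 a); omega
  have sC : ∀ x y, (x, y) ∈ C → e ≤ x ∧ x < n ∧ n - P.H ≤ y ∧ y < n := by
    intro x y a; have := sub _ _ ((mC _ _).1 a); omega
  have sD : ∀ x y, (x, y) ∈ D → 0 ≤ x ∧ x < P.H ∧ e ≤ y ∧ y < n := by
    intro x y a; have := sub _ _ ((mD _ _).1 a); omega
  clear hB hC hD
  -- the first failure on the left
  obtain ⟨Tl, ⟨ux, uy, vx, vy, el, fl0⟩, minl⟩ := Int.exists_least_of_bdd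
    (P := fun s => ∃ ux uy vx vy, LE e ux uy vx vy s ∧ (ux, uy) ∉ P.A)
    ⟨0, fun s ⟨_, _, _, _, a, _⟩ => a.nonneg he⟩ (by
      obtain ⟨ux, uy, vx, vy, s, a, b, -⟩ := LE.far he n
      exact ⟨s, ux, uy, vx, vy, a, fun c => by have := sub _ _ c; omega⟩)
  have L1 : ∀ {ux uy vx vy s}, LE e ux uy vx vy s → s < Tl → (ux, uy) ∈ P.A := by
    intro ux uy vx vy s a b
    by_contra c
    have := minl s ⟨_, _, _, _, a, c⟩
    omega
  have L2 : ∀ {ux uy vx vy s}, LE e ux uy vx vy s → s ≤ Tl → e ≤ s → (vx, vy) ∈ D :=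
    fun a b c => (mD _ _).2 (L1 (a.pred he c) (by omega))
  have L3 : ∀ {ux uy vx vy s}, LE e ux uy vx vy s → s ≤ Tl → (vx, vy) ∉ P.A := by
    intro ux uy vx vy s a b c
    by_cases d : e ≤ s
    · exact dAD _ c (L2 a b d)
    · have := a.base he (by omega)
      have := sub _ _ c
      omega
  have hTl : e ≤ Tl := by
    by_contra c
    have := el.base he (by omega)
    rcases cov ux uy (by omega) (by omega) (by omega) (by omega) with a | a | a | a
    · exact fl0 a
    · have := sB _ _ a; omega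
    · have := sC _ _ a; omega
    · have := sD _ _ a; omega
  have uQ : (ux, uy) ∈ B ∨ (ux, uy) ∈ C := by
    have := sD _ _ (L2 el le_rfl hTl)
    have := el.dir
    rcases cov ux uy (by omega) (by omega) (by omega) (by omega) with a | a | a | a
    · exact (fl0 a).elim
    · exact Or.inl a
    · exact Or.inr a
    · exact (L3 (el.pred he hTl) (by omega) ((mD _ _).1 a)).elim
  -- the first failure on the right
  obtain ⟨Tr, ⟨ax, ay, bx, bz, er, fr0⟩, minr⟩ := Int.exists_least_of_bdd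
    (P := fun s => ∃ ux uy vx vy, LE e ux uy vx vy s ∧ (P.W - 1 - vx, vy) ∉ B)
    ⟨0, fun s ⟨_, _, _, _, a, _⟩ => a.nonneg he⟩ (by
      obtain ⟨ux, uy, vx, vy, s, a, -, b⟩ := LE.far he n
      exact ⟨s, ux, uy, vx, vy, a, fun c => by have := sB _ _ c; omega⟩)
  have R1 : ∀ {ux uy vx vy s}, LE e ux uy vx vy s → s < Tr → (P.W - 1 - vx, vy) ∈ B := by
    intro ux uy vx vy s a b
    by_contra c
    have := minr s ⟨_, _, _, _, a, c⟩
    omega
  have R2 : ∀ {ux uy vx vy s}, LE e ux uy vx vy s → s < Tr + e → (P.W - 1 - ux, uy) ∈ P.A := by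
    intro ux uy vx vy s a b
    by_cases d : e ≤ s
    · exact cg ((mB _ _).1 (R1 (a.pred he d) (by omega))) rfl (by omega)
    · have := a.base he (by omega)
      rcases cov (n - 1 - uy) 0 (by omega) (by omega) (by omega) (by omega) with c | c | c | c
      · have := sub _ _ c; omega
      · exact cg ((mB _ _).1 c) (by omega) (by omega)
      · have := sC _ _ c; omega
      · have := sD _ _ c; omega
  have R3 : ∀ {ux uy vx vy s}, LE e ux uy vx vy s → s < Tr + e → (P.W - 1 - vx, vy) ∉ P.A := by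
    intro ux uy vx vy s a b c
    by_cases d : e ≤ s
    · exact dAB _ (R2 (a.pred he d) (by omega)) ((mB _ _).2 (cg c rfl (by omega)))
    · have := a.base he (by omega)
      have := sub _ _ c
      omega
  have inA := R2 er (by omega)
  have adj0 : Adj (P.W - 1 - ax, ay) (P.W - 1 - bx, bz) := by
    have := er.dir
    simp only [adj_iff]; omega
  have outD : (P.W - 1 - bx, bz) ∈ D := by
    have := sub _ _ inA
    have := er.dir
    rcases cov (P.W - 1 - bx) bz (by omega) (by omega) (by omega) (by omega) with a | a | a | a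
    · exact (R3 er (by omega) a).elim
    · exact (fr0 a).elim
    · exact (nt _ _ _ _ inA adj0 ((mC _ _).1 a)).elim
    · exact a
  -- the two staircases meet
  have meet : ∃ s, s < Tl ∧ LE e (P.W - 1 - ax) ay (P.W - 1 - bx) bz s := by
    by_contra hc
    obtain ⟨R, hR⟩ : ∃ R : ℤ × ℤ → ℤ × ℤ → Prop, R = fun a b =>
      ((a ∈ P.A ∨ a = (0, -1)) ∧ (b ∈ P.A ∨ b = (0, -1))) ∨
      ((a ∈ D ∨ a = (0, n)) ∧ (b ∈ D ∨ b = (0, n))) ∨
      (a = (P.W - 1 - ax, ay) ∧ b = (P.W - 1 - bx, bz)) := ⟨_, rfl⟩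
    have path : ReflTransGen (fun a b => R a b ∧ Adj a b) (0, -1) (0, n) := by
      rw [hR]
      refine (ReflTransGen.head (b := (0, 0)) ⟨Or.inl ⟨Or.inr rfl, Or.inl h.o0.zero⟩,
        by simp [adj_iff]⟩ (ReflTransGen.mono
          (fun a b c => ⟨Or.inl ⟨Or.inl c.1, Or.inl c.2.1⟩, c.2.2⟩) _ _
          (h.o0.conn _ h.o0.zero _ inA))).trans (ReflTransGen.head
            ⟨Or.inr (Or.inr ⟨rfl, rfl⟩), adj0⟩ (ReflTransGen.tail (ReflTransGen.mono
          (fun a b c => ⟨Or.inr (Or.inl ⟨Or.inl c.1, Or.inl c.2.1⟩), c.2.2⟩) _ _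
          (cD _ outD _ zD)) ⟨Or.inr (Or.inl ⟨Or.inl zD, Or.inr rfl⟩), by simp [adj_iff]⟩))
    have bA : ∀ a : ℤ × ℤ, a ∈ P.A ∨ a = (0, -1) → 0 ≤ a.1 ∧ a.1 < n := by
      rintro a (c | rfl)
      · have := sub _ _ c; omega
      · simp only; omega
    have bD : ∀ a : ℤ × ℤ, a ∈ D ∨ a = (0, n) → 0 ≤ a.1 ∧ a.1 < n := by
      rintro a (c | rfl)
      · have := sD _ _ c; omega
      · simp only; omega
    obtain ⟨N, hN⟩ := exists_sep R 0 n (by
      rw [hR]
      rintro a b (c | c | ⟨rfl, rfl⟩)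
      · exact ⟨(bA _ c.1).1, (bA _ c.1).2, bA _ c.2⟩
      · exact ⟨(bD _ c.1).1, (bD _ c.1).2, bD _ c.2⟩
      · exact ⟨(bA _ (Or.inl inA)).1, (bA _ (Or.inl inA)).2, bD _ (Or.inl outD)⟩) path
    have noR : ∀ {ux uy vx vy s}, LE e ux uy vx vy s → s < Tl → e ≤ s →
        ¬ R (ux, uy) (vx, vy) ∧ ¬ R (vx, vy) (ux, uy) := by
      intro ux uy vx vy s a b c
      have a1 := L1 a b
      have a2 := L2 a b.le c
      have a3 := sub _ _ a1
      have a4 := sD _ _ a2
      have n1 : ¬ ((vx, vy) ∈ P.A ∨ (vx, vy) = (0, -1)) := by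
        rintro (d | d)
        · exact dAD _ d a2
        · simp only [Prod.mk.injEq] at d; omega
      have n2 : ¬ ((ux, uy) ∈ D ∨ (ux, uy) = (0, n)) := by
        rintro (d | d)
        · exact dAD _ a1 d
        · simp only [Prod.mk.injEq] at d; omega
      rw [hR]
      constructor
      · rintro (d | d | d)
        · exact n1 d.2
        · exact n2 d.1
        · simp only [Prod.mk.injEq] at d
          obtain ⟨⟨rfl, rfl⟩, rfl, rfl⟩ := d
          exact hc ⟨s, b, a⟩
      · rintro (d | d | d)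
        · exact n1 d.1
        · exact n2 d.2
        · exact n1 (Or.inl (d.1 ▸ inA))
    have stepV : ∀ J y, Mult e J → e ≤ J → J ≤ y → y < J + e → J + y < Tl →
        N J y = N J (y + 1) := by
      intro J y a b c d f
      have g : LE e J y (J - 1) y (J + y) := ⟨J, a, Or.inl ⟨rfl, c, d, rfl, rfl, rfl⟩⟩
      have := sub _ _ (L1 g f)
      have i := noR g f (by omega)
      exact hN.ver J y (by simp only; omega) (by simp only; omega) i.2 i.1
    have stepH : ∀ J x, Mult e J → J ≤ x → x < J + e → x + J + e < Tl →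
        N x (J + e) = N (x + 1) (J + e) := by
      intro J x a c d f
      have g : LE e x (J + e - 1) x (J + e) (x + J + e) :=
        ⟨J, a, Or.inr ⟨rfl, c, d, rfl, rfl, rfl⟩⟩
      have := a.cases he
      have i := noR g f (by omega)
      exact hN.hor x (J + e) i.1 i.2
    have stair : ∀ m : ℕ, (∀ J y, Mult e J → J ≤ y → y < J + e → J + y ≤ Tl → J + y < m →
        N J y = 0) ∧ ∀ J x, Mult e J → J ≤ x → x < J + e → x + J + e ≤ Tl → x + J + e < m →
        N x (J + e) = 0 := by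
      intro m
      induction m with
      | zero =>
        constructor
        · intro J y a b c d f
          have := a.cases he
          omega
        · intro J y a b c d f
          have := a.cases he
          omega
      | succ m ih =>
        constructor
        · intro J y a b c d f
          rcases a.cases he with rfl | ⟨g, i⟩
          · exact hN.left y
          · by_cases j : y = J
            · have e1 := ih.2 (J - e) (J - 1) i (by omega) (by omega) (by omega) (by omega)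
              have e2 := stepH (J - e) (J - 1) i (by omega) (by omega) (by omega)
              simp only [sub_add_cancel] at e1 e2
              rw [j, ← e2, e1]
            · have e1 := ih.1 J (y - 1) a (by omega) (by omega) (by omega) (by omega)
              have e2 := stepV J (y - 1) a g (by omega) (by omega) (by omega)
              simp only [sub_add_cancel] at e2
              rw [← e2, e1]
        · intro J x a b c d f
          by_cases j : x = J
          · rcases a.cases he with rfl | ⟨g, i⟩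
            · rw [j]; exact hN.left _
            · have e1 := ih.1 J (J + e - 1) a (by omega) (by omega) (by omega) (by omega)
              have e2 := stepV J (J + e - 1) a g (by omega) (by omega) (by omega)
              simp only [sub_add_cancel] at e2
              rw [j, ← e2, e1]
          · have e1 := ih.2 J (x - 1) a (by omega) (by omega) (by omega) (by omega)
            have e2 := stepH J (x - 1) a (by omega) (by omega) (by omega)
            simp only [sub_add_cancel] at e2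
            rw [← e2, e1]
    have hQ : ∀ c ∈ B ∪ C, -1 < c.2 ∧ c.2 < n ∧ ∀ b, ¬ R c b ∧ ¬ R b c := by
      rintro ⟨x, y⟩ hc
      have a1 : 0 ≤ y ∧ y < n := by
        rcases hc with a | a
        · have := sB _ _ a; omega
        · have := sC _ _ a; omega
      have n1 : ¬ ((x, y) ∈ P.A ∨ (x, y) = (0, -1)) := by
        rintro (d | d)
        · exact hc.elim (dAB _ d) (dAC _ d)
        · simp only [Prod.mk.injEq] at d; omega
      have n2 : ¬ ((x, y) ∈ D ∨ (x, y) = (0, n)) := by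
        rintro (d | d)
        · exact hc.elim (fun a => dBD _ a d) (fun a => dCD _ a d)
        · simp only [Prod.mk.injEq] at d; omega
      refine ⟨by simp only; omega, a1.2, fun b => ?_⟩
      rw [hR]
      constructor
      · rintro (d | d | d)
        · exact n1 d.1
        · exact n2 d.1
        · exact n1 (Or.inl (d.1 ▸ inA))
      · rintro (d | d | d)
        · exact n1 d.2
        · exact n2 d.2
        · exact n2 (Or.inl (d.2 ▸ outD))
    have c0 := hN.cell (hQ _ uQ).1 (hQ _ uQ).2.1 (hQ _ uQ).2.2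
    have N0 : N ux uy = 0 := by
      obtain ⟨J, a, b | b⟩ := el
      · have := (stair (Tl + 1).toNat).1 J uy a (by omega) (by omega) (by omega) (by omega)
        rw [b.1, this]
      · have := (stair (Tl + 1).toNat).2 J ux a (by omega) (by omega) (by omega) (by omega)
        rw [← c0.2, b.1, sub_add_cancel, this]
    have fin : ∀ y, (n - 1, y) ∈ B ∪ C → Reach (B ∪ C) (ux, uy) (n - 1, y) → False := by
      intro y a b
      have e1 := hN.walk hQ b
      have e2 := (hN.cell (hQ _ a).1 (hQ _ a).2.1 (hQ _ a).2.2).1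
      have e3 := hN.right y (hQ _ a).1 (hQ _ a).2.1.le
      simp only [sub_add_cancel] at e1 e2
      omega
    rcases uQ with a | a
    · exact fin 0 (Or.inl zB) ((cB _ a _ zB).mono Set.subset_union_left)
    · exact fin _ (Or.inr zC) ((cC _ a _ zC).mono Set.subset_union_right)
  obtain ⟨s, hs, K, hK, k1⟩ := meet
  obtain ⟨K', hK', k2⟩ := id er
  obtain rfl : K' = K := by omega
  have k3 : K' ≤ ax ∧ ax < K' + e ∧ Tr = ax + K' + e ∧ K' ≤ P.W - 1 - ax ∧
      P.W - 1 - ax < K' + e ∧ P.W - 1 - ax + K' + e < Tl := by omega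
  clear k1 k2
  intro x y hxy
  refine (h.o0.conn _ h.o0.zero _ hxy).ind (fun z => Pyr e P.W z.1 z.2)
    ⟨0, Mult.zero e, by simp only; omega⟩ ?_
  rintro ⟨x, y⟩ - ⟨x', y'⟩ hb hab ⟨J, hJ, j1, j2, j3, j4⟩
  have g1 := hK'.gap he hJ
  have g2 := hJ.gap he hK'
  have := sub _ _ hb
  simp only [adj_iff] at hab j1 j2 j3 j4 ⊢
  rcases hab with ⟨rfl, rfl⟩ | ⟨rfl, rfl⟩ | ⟨rfl, rfl⟩ | ⟨rfl, rfl⟩
  · by_cases c : J ≤ P.W - 1 - (x + 1)
    · exact ⟨J, hJ, j1, j2, by omega, c⟩
    · exact (R3 ⟨J, hJ, Or.inl ⟨rfl, j1, j2, rfl, rfl, rfl⟩⟩ (by omega)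
        (cg hb (by omega) rfl)).elim
  · by_cases c : J ≤ x'
    · exact ⟨J, hJ, j1, j2, c, by omega⟩
    · exact (L3 ⟨J, hJ, Or.inl ⟨rfl, j1, j2, rfl, rfl, rfl⟩⟩ (by omega)
        (cg hb (by omega) rfl)).elim
  · by_cases c : y + 1 < J + e
    · exact ⟨J, hJ, by omega, c, j3, j4⟩
    · by_cases c1 : x < J + e ∧ (J ≠ K' ∨ x ≤ P.W - 1 - ax)
      · exact (L3 ⟨J, hJ, Or.inr ⟨rfl, j3, c1.1, rfl, rfl, rfl⟩⟩ (by omega)
          (cg hb rfl (by omega))).elim
      · by_cases c2 : P.W - 1 - x < J + e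
        · exact (R3 ⟨J, hJ, Or.inr ⟨rfl, j4, c2, rfl, rfl, rfl⟩⟩ (by omega)
            (cg hb (by omega) (by omega))).elim
        · exact ⟨J + e, hJ.add, by omega⟩
  · by_cases c : J ≤ y'
    · exact ⟨J, hJ, c, by omega, j3, j4⟩
    · rcases hJ.cases he with a | a
      · omega
      · exact ⟨J - e, a.2, by omega⟩

theorem alt_mir {P : Pc} (h : Cfg n P (P.tw true false) P (P.tw true false)) (nt : NT n P P) :
    P.tw true false = P := by
  have h1 := sub_pyr h nt
  have he : 0 < n - P.W := by have := h.o0.ltW; omega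
  have h2 : ∀ x y, (x, y) ∈ (P.tw true false).A → Pyr (n - P.W) P.W x y := by
    intro x y a
    obtain ⟨J, b, c⟩ := h1 _ _ a
    simp only [fl_true, fl_false] at c
    exact ⟨J, b, by omega⟩
  have e1 : ∀ x y x' y', Pyr (n - P.W) P.W x y → Pyr (n - P.W) P.W x' y' → x' = y →
      y' = n - 1 - x → False := by
    rintro x y x' y' ⟨J, a, b⟩ ⟨K, c, d⟩ f g
    have := a.gap he c
    omega
  have e2 : ∀ x y x' y', Pyr (n - P.W) P.W x y → Pyr (n - P.W) P.W x' y' → x' = n - 1 - x →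
      y' = n - 1 - y → False := by
    rintro x y x' y' ⟨J, a, b⟩ ⟨K, c, d⟩ f g
    omega
  exact Pc.ext (Set.Subset.antisymm (h.final _ h2 h1 h2 e1 e2) (h.shift.final _ h1 h2 h1 e1 e2))
    rfl rfl

end Pool.Agent.MP_c42d5f_co.H60
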