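import Pool.Agent.MP_c42d5f_co.H60.Four

/-! Tilings of the square by congruent tiles. -/

namespace Pool.Agent.MP_c42d5f_co.H60

/-- Congruence of sets of cells. -/
def Cong (T U : Set (ℤ × ℤ)) : Prop :=
  ∃ s t a b : ℤ, (s = 1 ∨ s = -1) ∧ (t = 1 ∨ t = -1) ∧
    ((∀ x y, (x, y) ∈ T ↔ (s * x + a, t * y + b) ∈ U) ∨
      (∀ x y, (x, y) ∈ T ↔ (s * y + a, t * x + b) ∈ U))

theorem cgi {A : Set (ℤ × ℤ)} {a b c d : ℤ} (h1 : a = c) (h2 : b = d) :
    (a, b) ∈ A ↔ (c, d) ∈ A := by rw [h1, h2]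

theorem sign_mul {s t : ℤ} (hs : s = 1 ∨ s = -1) (ht : t = 1 ∨ t = -1) :
    s * t = 1 ∨ s * t = -1 := by
  rcases hs with rfl | rfl <;> rcases ht with rfl | rfl <;> simp

theorem Cong.trans {T U V : Set (ℤ × ℤ)} (h : Cong T U) (h' : Cong U V) : Cong T V := by
  obtain ⟨s, t, a, b, hs, ht, h | h⟩ := h <;> obtain ⟨s', t', a', b', hs', ht', h' | h'⟩ := h'
  · exact ⟨s' * s, t' * t, s' * a + a', t' * b + b', sign_mul hs' hs, sign_mul ht' ht,
      Or.inl fun x y => by rw [h, h']; exact cgi (by ring) (by ring)⟩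
  · exact ⟨s' * t, t' * s, s' * b + a', t' * a + b', sign_mul hs' ht, sign_mul ht' hs,
      Or.inr fun x y => by rw [h, h']; exact cgi (by ring) (by ring)⟩
  · exact ⟨s' * s, t' * t, s' * a + a', t' * b + b', sign_mul hs' hs, sign_mul ht' ht,
      Or.inr fun x y => by rw [h, h']; exact cgi (by ring) (by ring)⟩
  · exact ⟨s' * t, t' * s, s' * b + a', t' * a + b', sign_mul hs' ht, sign_mul ht' hs,
      Or.inl fun x y => by rw [h, h']; exact cgi (by ring) (by ring)⟩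

theorem Cong.symm {T U : Set (ℤ × ℤ)} (h : Cong T U) : Cong U T := by
  obtain ⟨s, t, a, b, hs, ht, h | h⟩ := h
  · refine ⟨s, t, -(s * a), -(t * b), hs, ht, Or.inl fun x y => ?_⟩
    rw [h]
    rcases hs with rfl | rfl <;> rcases ht with rfl | rfl <;> exact cgi (by ring) (by ring)
  · refine ⟨t, s, -(t * b), -(s * a), ht, hs, Or.inr fun x y => ?_⟩
    rw [h]
    rcases hs with rfl | rfl <;> rcases ht with rfl | rfl <;> exact cgi (by ring) (by ring)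

theorem IsGridIsometry.inj {f : ℤ × ℤ → ℤ × ℤ} (h : IsGridIsometry f) : Function.Injective f := by
  obtain ⟨s, t, a, b, hs, ht, h | h⟩ := h <;> intro u v e <;> rw [h, h, Prod.mk.injEq] at e <;>
    rcases hs with rfl | rfl <;> rcases ht with rfl | rfl <;> ext <;> omega

theorem IsGridIsometry.adj {f : ℤ × ℤ → ℤ × ℤ} (h : IsGridIsometry f) (u v : ℤ × ℤ)
    (e : Adj u v) : Adj (f u) (f v) := by
  obtain ⟨s, t, a, b, hs, ht, h | h⟩ := h <;> rw [h, h] <;> simp only [adj_iff] at e ⊢ <;>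
    rcases hs with rfl | rfl <;> rcases ht with rfl | rfl <;> omega

theorem IsGridIsometry.cong {f : ℤ × ℤ → ℤ × ℤ} (h : IsGridIsometry f) (M : Set (ℤ × ℤ)) :
    Cong M (f '' M) := by
  have hi := h.inj
  obtain ⟨s, t, a, b, hs, ht, h | h⟩ := h
  · exact ⟨s, t, a, b, hs, ht, Or.inl fun x y => by rw [← h (x, y), hi.mem_set_image]⟩
  · exact ⟨s, t, a, b, hs, ht, Or.inr fun x y => by rw [← h (x, y), hi.mem_set_image]⟩

theorem Cong.ncard {T U : Set (ℤ × ℤ)} (h : Cong T U) : T.ncard = U.ncard := by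
  have key : ∀ {T U : Set (ℤ × ℤ)}, Cong T U → T.encard ≤ U.encard := by
    rintro T U ⟨s, t, a, b, hs, ht, h | h⟩
    · have hf : IsGridIsometry fun z => (s * z.1 + a, t * z.2 + b) :=
        ⟨s, t, a, b, hs, ht, Or.inl fun _ => rfl⟩
      exact Set.encard_le_encard_of_injOn (fun z hz => (h z.1 z.2).1 hz) hf.inj.injOn
    · have hf : IsGridIsometry fun z => (s * z.2 + a, t * z.1 + b) :=
        ⟨s, t, a, b, hs, ht, Or.inr fun _ => rfl⟩
      exact Set.encard_le_encard_of_injOn (fun z hz => (h z.1 z.2).1 hz) hf.inj.injOn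
  rw [Set.ncard, Set.ncard, le_antisymm (key h) (key h.symm)]

theorem rel_par {n : ℤ} {P Q : Pc} (o : P.Ok n) (o' : Q.Ok n) {s t a b : ℤ}
    (hs : s = 1 ∨ s = -1) (ht : t = 1 ∨ t = -1)
    (h : ∀ x y, (x, y) ∈ P.A ↔ (s * x + a, t * y + b) ∈ Q.A) : ∃ s t, Q = P.tw s t := by
  have h' : ∀ x y, (x, y) ∈ Q.A ↔ (s * (x - a), t * (y - b)) ∈ P.A := by
    intro x y
    rw [h]
    rcases hs with rfl | rfl <;> rcases ht with rfl | rfl <;> exact cgi (by ring) (by ring)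
  obtain ⟨y1, a1⟩ := o.right
  obtain ⟨x1, a2⟩ := o.top
  obtain ⟨y2, a3⟩ := o'.right
  obtain ⟨x2, a4⟩ := o'.top
  have b0 := o'.sub _ _ ((h _ _).1 o.zero)
  have b1 := o'.sub _ _ ((h _ _).1 a1)
  have b2 := o'.sub _ _ ((h _ _).1 a2)
  have b3 := o.sub _ _ ((h' _ _).1 o'.zero)
  have b4 := o.sub _ _ ((h' _ _).1 a3)
  have b5 := o.sub _ _ ((h' _ _).1 a4)
  rcases hs with rfl | rfl <;> rcases ht with rfl | rfl
  · exact ⟨false, false, Pc.ext (Set.ext fun z => (h' z.1 z.2).trans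
      (cgi (by omega) (by omega)))
      (by simp only [tw_W]; omega) (by simp only [tw_H]; omega)⟩
  · exact ⟨false, true, Pc.ext (Set.ext fun z => (h' z.1 z.2).trans
      (cgi (by simp only [fl_false]; omega) (by simp only [fl_true]; omega)))
      (by simp only [tw_W]; omega) (by simp only [tw_H]; omega)⟩
  · exact ⟨true, false, Pc.ext (Set.ext fun z => (h' z.1 z.2).trans
      (cgi (by simp only [fl_true]; omega) (by simp only [fl_false]; omega)))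
      (by simp only [tw_W]; omega) (by simp only [tw_H]; omega)⟩
  · exact ⟨true, true, Pc.ext (Set.ext fun z => (h' z.1 z.2).trans
      (cgi (by simp only [fl_true]; omega) (by simp only [fl_true]; omega)))
      (by simp only [tw_W]; omega) (by simp only [tw_H]; omega)⟩

theorem rel_of_cong {n : ℤ} {P Q : Pc} (o : P.Ok n) (o' : Q.Ok n) (h : Cong P.A Q.A) :
    Rel P Q := by
  obtain ⟨s, t, a, b, hs, ht, h | h⟩ := h
  · obtain ⟨s, t, e⟩ := rel_par o o' hs ht h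
    exact ⟨s, t, Or.inl e⟩
  · obtain ⟨s, t, e⟩ := rel_par o.sw o' hs ht fun x y => h y x
    exact ⟨s, t, Or.inr e⟩

theorem exists_pc {n : ℤ} {A : Set (ℤ × ℤ)}
    (sub : ∀ x y, (x, y) ∈ A → 0 ≤ x ∧ x < n ∧ 0 ≤ y ∧ y < n) (zero : (0, 0) ∈ A) (conn : Conn A)
    (h1 : ∀ y, (n - 1, y) ∉ A) (h2 : ∀ x, (x, n - 1) ∉ A) : ∃ P : Pc, P.A = A ∧ P.Ok n := by
  obtain ⟨w, ⟨y, a1⟩, a2⟩ := Int.exists_greatest_of_bdd (P := fun x => ∃ y, (x, y) ∈ A)
    ⟨n, fun x ⟨y, a⟩ => (sub _ _ a).2.1.le⟩ ⟨0, 0, zero⟩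
  obtain ⟨v, ⟨x, a3⟩, a4⟩ := Int.exists_greatest_of_bdd (P := fun y => ∃ x, (x, y) ∈ A)
    ⟨n, fun y ⟨x, a⟩ => (sub _ _ a).2.2.2.le⟩ ⟨0, 0, zero⟩
  refine ⟨⟨A, w + 1, v + 1⟩, rfl, fun x y a => ?_, zero, ⟨y, by simpa using a1⟩,
    ⟨x, by simpa using a3⟩, conn, ?_, ?_⟩
  · have := sub _ _ a
    have := a2 x ⟨y, a⟩
    have := a4 y ⟨x, a⟩
    simp only; omega
  · have := sub _ _ a1
    have : w ≠ n - 1 := by rintro rfl; exact h1 _ a1
    simp only; omega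
  · have := sub _ _ a3
    have : v ≠ n - 1 := by rintro rfl; exact h2 _ a3
    simp only; omega

/-- The properties of a tiling of the square used when a tile meets two opposite sides. -/
structure Til (n : ℤ) (F : Set (Set (ℤ × ℤ))) : Prop where
  sub : ∀ T ∈ F, ∀ x y, (x, y) ∈ T → 0 ≤ x ∧ x < n ∧ 0 ≤ y ∧ y < n
  cover : ∀ x y, 0 ≤ x → x < n → 0 ≤ y → y < n → ∃ T ∈ F, (x, y) ∈ T
  disj : ∀ T ∈ F, ∀ U ∈ F, ∀ z ∈ T, z ∈ U → T = U
  conn : ∀ T ∈ F, Conn T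
  cong : ∀ T ∈ F, ∀ U ∈ F, Cong T U
  two : ∀ T ∈ F, ∀ U ∈ F, ∃ V ∈ F, V ≠ T ∧ V ≠ U

theorem cong_sw (T : Set (ℤ × ℤ)) : Cong T {z | (z.2, z.1) ∈ T} :=
  ⟨1, 1, 0, 0, Or.inl rfl, Or.inl rfl, Or.inr fun x y => by simp⟩

theorem Til.sw {n : ℤ} {F : Set (Set (ℤ × ℤ))} (h : Til n F) :
    Til n ((fun T => {z | (z.2, z.1) ∈ T}) '' F) where
  sub := by
    rintro _ ⟨T, a, rfl⟩ x y b
    have := h.sub T a _ _ b
    simp only at this; omega
  cover x y a b c d := by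
    obtain ⟨T, e, f⟩ := h.cover y x c d a b
    exact ⟨_, ⟨T, e, rfl⟩, f⟩
  disj := by
    rintro _ ⟨T, a, rfl⟩ _ ⟨U, b, rfl⟩ z c d
    rw [h.disj T a U b _ c d]
  conn := by
    rintro _ ⟨T, a, rfl⟩
    exact (h.conn T a).preimage (fun z => (z.2, z.1)) (fun z => (z.2, z.1))
      (by intro a b; simp only [adj_iff]; omega) (fun _ => rfl) (fun _ => rfl)
  cong := by
    rintro _ ⟨T, a, rfl⟩ _ ⟨U, b, rfl⟩
    exact (cong_sw T).symm.trans ((h.cong T a U b).trans (cong_sw U))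
  two := by
    rintro _ ⟨T, a, rfl⟩ _ ⟨U, b, rfl⟩
    obtain ⟨V, c, d, e⟩ := h.two T a U b
    have inj : ∀ X Y : Set (ℤ × ℤ), {z : ℤ × ℤ | (z.2, z.1) ∈ X} = {z | (z.2, z.1) ∈ Y} →
        X = Y := fun X Y f => Set.ext fun z => Set.ext_iff.1 f (z.2, z.1)
    exact ⟨_, ⟨V, c, rfl⟩, fun f => d (inj _ _ f), fun f => e (inj _ _ f)⟩

theorem span {n : ℤ} {F : Set (Set (ℤ × ℤ))} (h : Til n F) {T0 : Set (ℤ × ℤ)} (h0 : T0 ∈ F)
    {y1 y2 : ℤ} (a1 : (0, y1) ∈ T0) (a2 : (n - 1, y2) ∈ T0) :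
    ∃ c, 0 < c ∧ c < n ∧ ∀ T ∈ F, (∀ z ∈ T, z.2 < c) ∨ (∀ z ∈ T, c ≤ z.2) := by
  have hn : 0 < n := by have := h.sub _ h0 _ _ a1; omega
  have nc : ∀ T ∈ F, ∀ U ∈ F, T ≠ U → ∀ x1 x2 y1 y2, (x1, 0) ∈ T → (x2, n - 1) ∈ T →
      (0, y1) ∈ U → (n - 1, y2) ∈ U → False := by
    intro T a U b c x1 x2 y1 y2 d e f g
    exact crossing 0 (n - 1) 0 (n - 1) (fun z i => by have := h.sub _ a _ _ i; omega)
      (fun z i => by have := h.sub _ b _ _ i; omega) (fun z i j => c (h.disj _ a _ b z i j))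
      d e g (h.conn _ a _ d _ e) (h.conn _ b _ f _ g)
  have sp : ∀ T ∈ F, T ≠ T0 → ∃ y1 y2, (0, y1) ∈ T ∧ (n - 1, y2) ∈ T := by
    intro T a b
    obtain ⟨s, t, p, q, hs, ht, c | c⟩ := h.cong _ h0 _ a
    · have c1 := (c _ _).1 a1
      have c2 := (c _ _).1 a2
      have := h.sub _ a _ _ c1
      have := h.sub _ a _ _ c2
      rcases hs with rfl | rfl
      · exact ⟨_, _, cg c1 (by omega) rfl, cg c2 (by omega) rfl⟩
      · exact ⟨_, _, cg c2 (by omega) rfl, cg c1 (by omega) rfl⟩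
    · have c1 := (c _ _).1 a1
      have c2 := (c _ _).1 a2
      have := h.sub _ a _ _ c1
      have := h.sub _ a _ _ c2
      rcases ht with rfl | rfl
      · exact (nc _ a _ h0 b _ _ _ _ (cg c1 rfl (by omega)) (cg c2 rfl (by omega)) a1 a2).elim
      · exact (nc _ a _ h0 b _ _ _ _ (cg c2 rfl (by omega)) (cg c1 rfl (by omega)) a1 a2).elim
  have sp' : ∀ T ∈ F, ∃ y1 y2, (0, y1) ∈ T ∧ (n - 1, y2) ∈ T := by
    intro T a
    by_cases b : T = T0
    · exact ⟨_, _, b ▸ a1, b ▸ a2⟩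
    · exact sp T a b
  obtain ⟨A, hA, zA⟩ := h.cover 0 0 le_rfl hn le_rfl hn
  have row : ∀ x, 0 ≤ x → x < n → (x, 0) ∈ A := by
    intro x a b
    obtain ⟨T, c, d⟩ := h.cover x 0 a b le_rfl hn
    by_contra e
    obtain ⟨_, y, -, f⟩ := sp' A hA
    obtain ⟨y', _, g, -⟩ := sp' T c
    exact bottom n n (fun z i => h.sub _ hA _ _ i) (fun z i => h.sub _ c _ _ i)
      (fun z i j => e (h.disj _ hA _ c z i j ▸ d)) (h.conn _ hA) (h.conn _ c) zA f g d a
  have full : ∀ T ∈ F, ∃ r, (∀ x, 0 ≤ x → x < n → (x, r) ∈ T) ∧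
      ((∀ z ∈ T, r ≤ z.2) ∨ (∀ z ∈ T, z.2 ≤ r)) := by
    intro T a
    obtain ⟨s, t, p, q, hs, ht, c | c⟩ := h.cong _ a _ hA
    · obtain ⟨y1, y2, d, e⟩ := sp' T a
      have := h.sub _ hA _ _ ((c _ _).1 d)
      have := h.sub _ hA _ _ ((c _ _).1 e)
      refine ⟨-(t * q), fun x f g => (c _ _).2 (cg (row (s * x + p) ?_ ?_) rfl ?_), ?_⟩
      · rcases hs with rfl | rfl <;> omega
      · rcases hs with rfl | rfl <;> omega
      · rcases ht with rfl | rfl <;> omega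
      · rcases ht with rfl | rfl
        · exact Or.inl fun z f => by have := h.sub _ hA _ _ ((c z.1 z.2).1 f); omega
        · exact Or.inr fun z f => by have := h.sub _ hA _ _ ((c z.1 z.2).1 f); omega
    · obtain ⟨y1, y2, d, e⟩ := sp' T a
      obtain ⟨V, f, g, -⟩ := h.two A hA A hA
      obtain ⟨y3, y4, i, j⟩ := sp' V f
      have c1 := (c _ _).1 d
      have c2 := (c _ _).1 e
      have := h.sub _ hA _ _ c1
      have := h.sub _ hA _ _ c2
      rcases ht with rfl | rfl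
      · exact (nc _ hA _ f g.symm _ _ _ _ zA (cg c2 rfl (by omega)) i j).elim
      · exact (nc _ hA _ f g.symm _ _ _ _ zA (cg c1 rfl (by omega)) i j).elim
  obtain ⟨r, ⟨B, hB, nB, fB, uB⟩, minr⟩ := Int.exists_least_of_bdd
    (P := fun r => ∃ T ∈ F, T ≠ A ∧ (∀ x, 0 ≤ x → x < n → (x, r) ∈ T) ∧
      ((∀ z ∈ T, r ≤ z.2) ∨ (∀ z ∈ T, z.2 ≤ r)))
    ⟨0, fun r ⟨T, a, _, b, _⟩ => (h.sub _ a _ _ (b 0 le_rfl hn)).2.2.1⟩ (by
      obtain ⟨V, f, g, -⟩ := h.two A hA A hA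
      obtain ⟨r, a⟩ := full V f
      exact ⟨r, V, f, g, a⟩)
  have r0 := h.sub _ hB _ _ (fB 0 le_rfl hn)
  have r1 : r ≠ 0 := by
    rintro rfl
    exact nB (h.disj _ hB _ hA _ (fB 0 le_rfl hn) zA)
  have avoid : ∀ T ∈ F, T ≠ B → ∀ x, (x, r) ∉ T := by
    intro T a b x c
    have := h.sub _ a _ _ c
    exact b (h.disj _ a _ hB _ c (fB x (by omega) (by omega)))
  have lowA : ∀ z ∈ A, z.2 < r := by
    intro z a
    by_contra b
    obtain ⟨x, -, c⟩ := (h.conn _ hA _ zA _ a).cross_y r (by simp only; omega) (by omega)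
    exact avoid A hA nB.symm x c
  have high : ∀ T ∈ F, T ≠ A → T ≠ B → ∀ z ∈ T, r + 1 ≤ z.2 := by
    intro T a b c z d
    obtain ⟨r', e, f⟩ := full T a
    have g := minr r' ⟨T, a, b, e, f⟩
    have g' : r' ≠ r := by
      rintro rfl
      exact avoid T a c 0 (e 0 le_rfl hn)
    by_contra i
    obtain ⟨x, j, -⟩ := (h.conn _ a _ d _ (e 0 le_rfl hn)).cross_y (r + 1) (by omega)
      (by simp only; omega)
    exact avoid T a c x (cg j rfl (by omega))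
  rcases uB with u | u
  · refine ⟨r, by omega, by omega, fun T a => ?_⟩
    by_cases b : T = A
    · exact Or.inl (b ▸ lowA)
    · by_cases c : T = B
      · exact Or.inr (c ▸ u)
      · exact Or.inr fun z d => by have := high T a b c z d; omega
  · refine ⟨r + 1, by omega, ?_, fun T a => ?_⟩
    · obtain ⟨V, f, g, i⟩ := h.two A hA B hB
      obtain ⟨y, -, j, -⟩ := sp' V f
      have := high V f g i _ j
      have := h.sub _ f _ _ j
      omega
    · by_cases b : T = A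
      · exact Or.inl fun z d => by have := lowA z (b ▸ d); omega
      · by_cases c : T = B
        · exact Or.inl fun z d => by have := u z (c ▸ d); omega
        · exact Or.inr (high T a b c)

end Pool.Agent.MP_c42d5f_co.H60
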